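import Mathlib

/-!
The algebraic closure operator (over the prime ring) in a field of characteristic zero, and its
properties obtained from the algebraic independence matroid.
-/

namespace MP1c24b6

variable {K : Type*} [Field K] [CharZero K]

/-- All elements of `K` algebraic over the subring generated by `s`. -/
def cl (s : Set K) : Set K := {x | IsAlgebraic (Algebra.adjoin ℤ s) x}

lemma cl_eq (s : Set K) : cl s = (AlgebraicIndependent.matroid ℤ K).closure s := by
  rw [AlgebraicIndependent.matroid_closure_eq]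
  rfl

lemma subset_cl (s : Set K) : s ⊆ cl s := by
  rw [cl_eq]
  exact (AlgebraicIndependent.matroid ℤ K).subset_closure s (by simp)

lemma cl_mono {s t : Set K} (h : s ⊆ t) : cl s ⊆ cl t := by
  rw [cl_eq, cl_eq]
  exact (AlgebraicIndependent.matroid ℤ K).closure_subset_closure h

lemma cl_subset {s t : Set K} (h : s ⊆ cl t) : cl s ⊆ cl t := by
  rw [cl_eq] at *
  rw [cl_eq]
  exact (AlgebraicIndependent.matroid ℤ K).closure_subset_closure_of_subset_closure h

lemma cl_exchange {s : Set K} {x y : K} (h : y ∈ cl (insert x s)) (h' : y ∉ cl s) :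
    x ∈ cl (insert y s) := by
  rw [cl_eq] at *
  exact ((AlgebraicIndependent.matroid ℤ K).closure_exchange ⟨h, h'⟩).1

lemma add_mem_cl {s : Set K} {x y : K} (hx : x ∈ cl s) (hy : y ∈ cl s) : x + y ∈ cl s :=
  IsAlgebraic.add hx hy

lemma mul_mem_cl {s : Set K} {x y : K} (hx : x ∈ cl s) (hy : y ∈ cl s) : x * y ∈ cl s :=
  IsAlgebraic.mul hx hy

lemma neg_mem_cl {s : Set K} {x : K} (hx : x ∈ cl s) : -x ∈ cl s :=
  IsAlgebraic.neg hx

lemma sub_mem_cl {s : Set K} {x y : K} (hx : x ∈ cl s) (hy : y ∈ cl s) : x - y ∈ cl s :=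
  IsAlgebraic.sub hx hy

lemma inv_mem_cl {s : Set K} {x : K} (hx : x ∈ cl s) : x⁻¹ ∈ cl s :=
  IsAlgebraic.inv hx

lemma div_mem_cl {s : Set K} {x y : K} (hx : x ∈ cl s) (hy : y ∈ cl s) : x / y ∈ cl s := by
  rw [div_eq_mul_inv]
  exact mul_mem_cl hx (inv_mem_cl hy)

lemma cl_countable {s : Set K} (hs : s.Countable) : (cl s).Countable := by
  have : Countable (Algebra.adjoin ℤ s) := by
    rw [← Cardinal.mk_le_aleph0_iff]
    have h := Algebra.lift_cardinalMk_adjoin_le ℤ s
    have hs' : Cardinal.mk s ≤ Cardinal.aleph0 := Cardinal.mk_le_aleph0_iff.mpr hs.to_subtype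
    simp only [Cardinal.lift_id, Cardinal.mk_int, Cardinal.lift_aleph0] at h
    simpa [hs'] using h
  exact Algebraic.countable (Algebra.adjoin ℤ s) K

end MP1c24b6
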