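import Mathlib

/-!
Taylor series of smooth functions of two variables as a ring homomorphism to `ℝ⟦X⟧⟦X⟧`, and the
remainder estimate.
-/

namespace MP1c24b6

open scoped ContDiff
open PowerSeries Filter Topology Asymptotics

section ExpDerivation

variable {A : Type*} [CommRing A] [Algebra ℝ A] (D : Derivation ℝ A A)

/-- The exponential of a derivation. -/
noncomputable def expD (a : A) : A⟦X⟧ := mk fun n => ((n.factorial : ℝ)⁻¹) • (D^[n] a)

lemma coeff_expD (a : A) (n : ℕ) : coeff n (expD D a) = ((n.factorial : ℝ)⁻¹) • (D^[n] a) := by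
  rw [expD, coeff_mk]

lemma iterate_add' (n : ℕ) (a b : A) : D^[n] (a + b) = D^[n] a + D^[n] b := by
  induction n generalizing a b with
  | zero => rfl
  | succ n ih => rw [Function.iterate_succ_apply, map_add, ih]; rfl

lemma expD_add (a b : A) : expD D (a + b) = expD D a + expD D b := by
  ext n
  rw [map_add, coeff_expD, coeff_expD, coeff_expD, iterate_add', smul_add]

lemma succ_smul_coeff_expD (a : A) (n : ℕ) :
    ((n : ℝ) + 1) • coeff (n + 1) (expD D a) = coeff n (expD D (D a)) := by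
  rw [coeff_expD, coeff_expD, smul_smul, Function.iterate_succ_apply]
  congr 1
  rw [Nat.factorial_succ]
  have : ((n.factorial : ℝ)) ≠ 0 := by positivity
  have h2 : ((n : ℝ) + 1) ≠ 0 := by positivity
  push_cast
  field_simp

lemma derivative_expD (a : A) :
    derivative A (expD D a) = expD D (D a) := by
  ext n
  rw [coeff_derivative, ← succ_smul_coeff_expD, Algebra.smul_def, mul_comm]
  simp

lemma expD_mul (a b : A) : expD D (a * b) = expD D a * expD D b := by
  have key : ∀ n : ℕ, ∀ a b : A, coeff n (expD D (a * b)) = coeff n (expD D a * expD D b) := by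
    intro n
    induction n with
    | zero =>
      intro a b
      rw [coeff_mul]
      simp [coeff_expD]
    | succ n ih =>
      intro a b
      have h1 := succ_smul_coeff_expD D (a * b) n
      rw [Derivation.leibniz, expD_add, map_add, smul_eq_mul, smul_eq_mul, ih, ih] at h1
      have h2 : ((n : ℝ) + 1) • coeff (n + 1) (expD D a * expD D b) =
          coeff n (expD D a * expD D (D b)) + coeff n (expD D b * expD D (D a)) := by
        have h3 := Derivation.leibniz (derivative A) (expD D a) (expD D b)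
        have h4 := congrArg (coeff n) h3
        rw [coeff_derivative, map_add, smul_eq_mul, smul_eq_mul, derivative_expD,
          derivative_expD] at h4
        rw [← h4, Algebra.smul_def, mul_comm]
        simp
      rw [← h2] at h1
      have h3 : ((n : ℝ) + 1) ≠ 0 := by positivity
      have h5 := congrArg (fun z => ((n : ℝ) + 1)⁻¹ • z) h1
      simpa [smul_smul, inv_mul_cancel₀ h3] using h5
  ext n
  exact key n a b

/-- The exponential of a derivation as a ring homomorphism. -/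
noncomputable def expHom : A →+* A⟦X⟧ where
  toFun := expD D
  map_one' := by
    ext n
    rw [coeff_expD, coeff_one]
    cases n with
    | zero => simp
    | succ n =>
      rw [Function.iterate_succ_apply, Derivation.map_one_eq_zero]
      have : D^[n] (0 : A) = 0 := by
        induction n with
        | zero => rfl
        | succ n ih => rw [Function.iterate_succ_apply, map_zero, ih]
      rw [this]
      simp
  map_mul' := expD_mul D
  map_zero' := by
    have := expD_add D 0 0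
    rw [add_zero] at this
    exact left_eq_add.mp this
  map_add' := expD_add D

end ExpDerivation

/-! ### Smooth functions of two variables -/

/-- The algebra of smooth functions on the plane. -/
def Sm : Subalgebra ℝ (ℝ × ℝ → ℝ) where
  carrier := {F | ContDiff ℝ ∞ F}
  mul_mem' := by
    intro a b ha hb
    have ha' : ContDiff ℝ ∞ a := ha
    have hb' : ContDiff ℝ ∞ b := hb
    exact ha'.mul hb'
  add_mem' := by
    intro a b ha hb
    have ha' : ContDiff ℝ ∞ a := ha
    have hb' : ContDiff ℝ ∞ b := hb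
    exact ha'.add hb'
  algebraMap_mem' := by
    intro r
    exact (contDiff_const : ContDiff ℝ ∞ (fun _ : ℝ × ℝ => r))

lemma Sm.contDiff (F : Sm) : ContDiff ℝ ∞ (F : ℝ × ℝ → ℝ) := F.2

lemma Sm.differentiable (F : Sm) : Differentiable ℝ (F : ℝ × ℝ → ℝ) :=
  (Sm.contDiff F).differentiable (by simp)

lemma contDiff_dir {F : ℝ × ℝ → ℝ} (hF : ContDiff ℝ ∞ F) (v : ℝ × ℝ) :
    ContDiff ℝ ∞ (fun p => fderiv ℝ F p v) := by
  have h := hF.fderiv_right (m := ∞) (by simp)
  exact h.clm_apply contDiff_const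

/-- The directional derivative as a derivation of `Sm`. -/
noncomputable def dir (v : ℝ × ℝ) : Derivation ℝ Sm Sm :=
  Derivation.mk'
    { toFun := fun F => ⟨fun p => fderiv ℝ (F : ℝ × ℝ → ℝ) p v, contDiff_dir F.2 v⟩
      map_add' := by
        intro F G
        ext p
        have : ((F + G : Sm) : ℝ × ℝ → ℝ) = (F : ℝ × ℝ → ℝ) + (G : ℝ × ℝ → ℝ) := rfl
        change fderiv ℝ ((F + G : Sm) : ℝ × ℝ → ℝ) p v = fderiv ℝ F p v + fderiv ℝ G p v
        rw [this, fderiv_add (Sm.differentiable F).differentiableAt (Sm.differentiable G).differentiableAt]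
        rfl
      map_smul' := by
        intro r F
        ext p
        have : ((r • F : Sm) : ℝ × ℝ → ℝ) = r • (F : ℝ × ℝ → ℝ) := rfl
        change fderiv ℝ ((r • F : Sm) : ℝ × ℝ → ℝ) p v = r * fderiv ℝ F p v
        rw [this, fderiv_const_smul (Sm.differentiable F).differentiableAt]
        rfl }
    (by
      intro F G
      ext p
      have : ((F * G : Sm) : ℝ × ℝ → ℝ) = (F : ℝ × ℝ → ℝ) * (G : ℝ × ℝ → ℝ) := rfl
      change fderiv ℝ ((F * G : Sm) : ℝ × ℝ → ℝ) p v =
        (F : ℝ × ℝ → ℝ) p * fderiv ℝ G p v + (G : ℝ × ℝ → ℝ) p * fderiv ℝ F p v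
      rw [this, fderiv_mul (Sm.differentiable F).differentiableAt (Sm.differentiable G).differentiableAt]
      rfl)

lemma dir_apply (v : ℝ × ℝ) (F : Sm) (p : ℝ × ℝ) :
    (dir v F : ℝ × ℝ → ℝ) p = fderiv ℝ (F : ℝ × ℝ → ℝ) p v := rfl

lemma dir_comm (v w : ℝ × ℝ) (F : Sm) : dir v (dir w F) = dir w (dir v F) := by
  ext p
  have hsymm : IsSymmSndFDerivAt ℝ (F : ℝ × ℝ → ℝ) p :=
    (Sm.contDiff F).contDiffAt.isSymmSndFDerivAt (by
      simp only [minSmoothness_of_isRCLikeNormedField]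
      exact WithTop.coe_le_coe.mpr le_top)
  have hd : DifferentiableAt ℝ (fderiv ℝ (F : ℝ × ℝ → ℝ)) p :=
    (((Sm.contDiff F).fderiv_right (m := ∞) (by simp)).differentiable (by simp)).differentiableAt
  have h1 : ∀ u : ℝ × ℝ, fderiv ℝ (fun q => fderiv ℝ (F : ℝ × ℝ → ℝ) q u) p =
      (fderiv ℝ (fderiv ℝ (F : ℝ × ℝ → ℝ)) p).flip u := by
    intro u
    ext z <;>
    simp [fderiv_clm_apply hd (differentiableAt_const u)]
  change fderiv ℝ (fun q => fderiv ℝ (F : ℝ × ℝ → ℝ) q w) p v =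
    fderiv ℝ (fun q => fderiv ℝ (F : ℝ × ℝ → ℝ) q v) p w
  rw [h1, h1]
  exact hsymm v w

/-- Evaluation at a point. -/
def evalAt (p : ℝ × ℝ) : Sm →+* ℝ := (Pi.evalRingHom (fun _ => ℝ) p).comp Sm.val.toRingHom

/-- The Taylor series: the outer variable corresponds to the first coordinate. -/
noncomputable def tay (p : ℝ × ℝ) : Sm →+* ℝ⟦X⟧⟦X⟧ :=
  (PowerSeries.map ((PowerSeries.map (evalAt p)).comp (expHom (dir (0, 1))))).comp
    (expHom (dir (1, 0)))

lemma coeff_tay (p : ℝ × ℝ) (F : Sm) (i j : ℕ) :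
    coeff j (coeff i (tay p F)) = ((j.factorial : ℝ)⁻¹) * (((i.factorial : ℝ)⁻¹) *
      ((dir (0, 1))^[j] ((dir (1, 0))^[i] F) : ℝ × ℝ → ℝ) p) := by
  have hsm : ∀ (n : ℕ) (r : ℝ) (G : Sm), (dir (0, 1))^[n] (r • G) = r • (dir (0, 1))^[n] G := by
    intro n
    induction n with
    | zero => intro r G; rfl
    | succ n ih =>
      intro r G
      rw [Function.iterate_succ_apply, Derivation.map_smul, ih]
      rfl
  change coeff j (coeff i (PowerSeries.map ((PowerSeries.map (evalAt p)).comp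
    (expHom (dir (0, 1)))) (expD (dir (1, 0)) F))) = _
  rw [coeff_map, coeff_expD]
  change coeff j (PowerSeries.map (evalAt p) (expD (dir (0, 1)) _)) = _
  rw [coeff_map, coeff_expD, hsm]
  rfl

lemma iterate_zero' {A : Type*} [CommRing A] [Algebra ℝ A] (D : Derivation ℝ A A) (n : ℕ) :
    D^[n] (0 : A) = 0 := by
  induction n with
  | zero => rfl
  | succ n ih => rw [Function.iterate_succ_apply, map_zero, ih]

lemma expD_of_D_eq_zero {A : Type*} [CommRing A] [Algebra ℝ A] (D : Derivation ℝ A A) (a : A)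
    (h : D a = 0) : expD D a = C a := by
  ext n
  rw [coeff_expD, coeff_C]
  cases n with
  | zero => simp
  | succ n => rw [Function.iterate_succ_apply, h, iterate_zero']; simp

lemma expD_of_D_eq_one {A : Type*} [CommRing A] [Algebra ℝ A] (D : Derivation ℝ A A) (a : A)
    (h : D a = 1) : expD D a = C a + X := by
  ext n
  rw [coeff_expD, map_add, coeff_C, coeff_X]
  match n with
  | 0 => simp
  | 1 => simp [h]
  | n + 2 =>
    rw [Function.iterate_succ_apply, Function.iterate_succ_apply, h,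
      Derivation.map_one_eq_zero, iterate_zero']
    simp

/-- The first coordinate centred at `p`. -/
def cs (p : ℝ × ℝ) : Sm := ⟨fun q => q.1 - p.1, by
  have : ContDiff ℝ ∞ (fun q : ℝ × ℝ => q.1 - p.1) := by fun_prop
  exact this⟩

/-- The second coordinate centred at `p`. -/
def ct (p : ℝ × ℝ) : Sm := ⟨fun q => q.2 - p.2, by
  have : ContDiff ℝ ∞ (fun q : ℝ × ℝ => q.2 - p.2) := by fun_prop
  exact this⟩

lemma fderiv_cs (p q v : ℝ × ℝ) : fderiv ℝ (fun q : ℝ × ℝ => q.1 - p.1) q v = v.1 := by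
  have h : HasFDerivAt (fun q : ℝ × ℝ => q.1 - p.1) (ContinuousLinearMap.fst ℝ ℝ ℝ) q :=
    (hasFDerivAt_fst (𝕜 := ℝ) (p := q)).sub_const p.1
  rw [h.fderiv]
  rfl

lemma fderiv_ct (p q v : ℝ × ℝ) : fderiv ℝ (fun q : ℝ × ℝ => q.2 - p.2) q v = v.2 := by
  have h : HasFDerivAt (fun q : ℝ × ℝ => q.2 - p.2) (ContinuousLinearMap.snd ℝ ℝ ℝ) q :=
    (hasFDerivAt_snd (𝕜 := ℝ) (p := q)).sub_const p.2
  rw [h.fderiv]
  rfl

lemma dir_cs_one (p : ℝ × ℝ) : dir (1, 0) (cs p) = 1 := by
  ext q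
  exact fderiv_cs p q (1, 0)

lemma dir_cs_zero (p : ℝ × ℝ) : dir (0, 1) (cs p) = 0 := by
  ext q
  exact fderiv_cs p q (0, 1)

lemma dir_ct_one (p : ℝ × ℝ) : dir (0, 1) (ct p) = 1 := by
  ext q
  exact fderiv_ct p q (0, 1)

lemma dir_ct_zero (p : ℝ × ℝ) : dir (1, 0) (ct p) = 0 := by
  ext q
  exact fderiv_ct p q (1, 0)

lemma tay_def (p : ℝ × ℝ) (F : Sm) : tay p F = PowerSeries.map ((PowerSeries.map (evalAt p)).comp
    (expHom (dir (0, 1)))) (expD (dir (1, 0)) F) := rfl

lemma inner_def (p : ℝ × ℝ) (F : Sm) : ((PowerSeries.map (evalAt p)).comp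
    (expHom (dir (0, 1)))) F = PowerSeries.map (evalAt p) (expD (dir (0, 1)) F) := rfl

lemma tay_cs (p : ℝ × ℝ) : tay p (cs p) = X := by
  rw [tay_def, expD_of_D_eq_one _ _ (dir_cs_one p), map_add, PowerSeries.map_C,
    PowerSeries.map_X, inner_def, expD_of_D_eq_zero _ _ (dir_cs_zero p), PowerSeries.map_C]
  have : evalAt p (cs p) = 0 := by
    change p.1 - p.1 = 0
    ring
  rw [this, map_zero, map_zero, zero_add]

lemma tay_ct (p : ℝ × ℝ) : tay p (ct p) = C X := by
  rw [tay_def, expD_of_D_eq_zero _ _ (dir_ct_zero p), PowerSeries.map_C,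
    inner_def, expD_of_D_eq_one _ _ (dir_ct_one p), map_add, PowerSeries.map_C,
    PowerSeries.map_X]
  have : evalAt p (ct p) = 0 := by
    change p.2 - p.2 = 0
    ring
  rw [this, map_zero, zero_add]

lemma tay_const (p : ℝ × ℝ) (r : ℝ) : tay p (algebraMap ℝ Sm r) = C (C r) := by
  rw [tay_def, expD_of_D_eq_zero _ _ (Derivation.map_algebraMap _ _), PowerSeries.map_C,
    inner_def, expD_of_D_eq_zero _ _ (Derivation.map_algebraMap _ _), PowerSeries.map_C]
  rfl

/-- The truncated series as a polynomial function. -/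
noncomputable def polyOf (K : ℕ) (p : ℝ × ℝ) (Y : ℝ⟦X⟧⟦X⟧) : Sm :=
  ∑ a ∈ Finset.range (K + 1), ∑ b ∈ Finset.range (K + 1),
    algebraMap ℝ Sm (coeff b (coeff a Y)) * cs p ^ a * ct p ^ b

lemma polyOf_apply (K : ℕ) (p : ℝ × ℝ) (Y : ℝ⟦X⟧⟦X⟧) (q : ℝ × ℝ) :
    (polyOf K p Y : ℝ × ℝ → ℝ) q = ∑ a ∈ Finset.range (K + 1), ∑ b ∈ Finset.range (K + 1),
      coeff b (coeff a Y) * (q.1 - p.1) ^ a * (q.2 - p.2) ^ b := by
  have : (polyOf K p Y : ℝ × ℝ → ℝ) q = evalAt q (polyOf K p Y) := rfl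
  rw [this, polyOf, map_sum]
  refine Finset.sum_congr rfl fun a _ => ?_
  rw [map_sum]
  refine Finset.sum_congr rfl fun b _ => ?_
  rw [map_mul, map_mul, map_pow, map_pow]
  rfl

lemma tay_mon (p : ℝ × ℝ) (r : ℝ) (a b : ℕ) :
    tay p (algebraMap ℝ Sm r * cs p ^ a * ct p ^ b) = C (C r * X ^ b) * X ^ a := by
  rw [map_mul, map_mul, map_pow, map_pow, tay_const, tay_cs, tay_ct, map_mul, map_pow]
  ring

lemma coeff_tay_polyOf (K : ℕ) (p : ℝ × ℝ) (Y : ℝ⟦X⟧⟦X⟧) {i j : ℕ} (hi : i ≤ K) (hj : j ≤ K) :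
    coeff j (coeff i (tay p (polyOf K p Y))) = coeff j (coeff i Y) := by
  rw [polyOf, map_sum, map_sum, map_sum]
  rw [Finset.sum_eq_single i]
  · rw [map_sum, map_sum, map_sum, Finset.sum_eq_single j]
    · rw [tay_mon, coeff_C_mul_X_pow, if_pos rfl, coeff_C_mul_X_pow, if_pos rfl]
    · intro b _ hb
      rw [tay_mon, coeff_C_mul_X_pow, if_pos rfl, coeff_C_mul_X_pow, if_neg hb.symm]
    · intro h
      exact absurd (Finset.mem_range.mpr (by omega)) h
  · intro a _ ha
    rw [map_sum, map_sum, map_sum]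
    refine Finset.sum_eq_zero fun b _ => ?_
    rw [tay_mon, coeff_C_mul_X_pow, if_neg ha.symm, map_zero]
  · intro h
    exact absurd (Finset.mem_range.mpr (by omega)) h

/-- Vanishing to order `K`. -/
def Van (K : ℕ) (Y : ℝ⟦X⟧⟦X⟧) : Prop := ∀ i j, i + j ≤ K → coeff j (coeff i Y) = 0

lemma Van.mul_left {K : ℕ} {Y : ℝ⟦X⟧⟦X⟧} (h : Van K Y) (Z : ℝ⟦X⟧⟦X⟧) : Van K (Z * Y) := by
  intro i j hij
  rw [coeff_mul, map_sum]
  refine Finset.sum_eq_zero fun x hx => ?_
  rw [coeff_mul]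
  refine Finset.sum_eq_zero fun y hy => ?_
  rw [Finset.HasAntidiagonal.mem_antidiagonal] at hx hy
  rw [h x.2 y.2 (by omega), mul_zero]

/-- The remainder estimate. -/
theorem isBigO_of_van (p : ℝ × ℝ) (K : ℕ) (F : Sm) (h : Van K (tay p F)) :
    (F : ℝ × ℝ → ℝ) =O[𝓝 p] (fun q => ‖q - p‖ ^ (K + 1)) := by
  have h' : ∀ i j, i + j ≤ K → ((dir (0, 1))^[j] ((dir (1, 0))^[i] F) : ℝ × ℝ → ℝ) p = 0 := by
    intro i j hij
    have h1 := h i j hij
    rw [coeff_tay] at h1
    have h2 : ((j.factorial : ℝ)⁻¹) ≠ 0 := by positivity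
    have h3 : ((i.factorial : ℝ)⁻¹) ≠ 0 := by positivity
    exact (mul_eq_zero.mp ((mul_eq_zero.mp h1).resolve_left h2)).resolve_left h3
  clear h
  induction K generalizing F with
  | zero =>
    have h0 : (F : ℝ × ℝ → ℝ) p = 0 := h' 0 0 le_rfl
    have hd : HasFDerivAt (F : ℝ × ℝ → ℝ) (fderiv ℝ (F : ℝ × ℝ → ℝ) p) p :=
      (Sm.differentiable F).differentiableAt.hasFDerivAt
    have h1 := hd.isBigO_sub
    simp only [h0, sub_zero] at h1
    simpa using h1.norm_right
  | succ K ih =>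
    have hs := ih (dir (1, 0) F) (fun i j hij => by
      have := h' (i + 1) j (by omega)
      rwa [Function.iterate_succ_apply] at this)
    have hcomm : ∀ i : ℕ, ∀ G : Sm, (dir (1, 0))^[i] (dir (0, 1) G) =
        dir (0, 1) ((dir (1, 0))^[i] G) := by
      intro i
      induction i with
      | zero => intro G; rfl
      | succ i ihi =>
        intro G
        rw [Function.iterate_succ_apply, Function.iterate_succ_apply, dir_comm, ihi]
    have ht := ih (dir (0, 1) F) (fun i j hij => by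
      have := h' i (j + 1) (by omega)
      rw [Function.iterate_succ_apply] at this
      rwa [hcomm])
    have h0 : (F : ℝ × ℝ → ℝ) p = 0 := h' 0 0 (by omega)
    obtain ⟨c1, hc1, hs⟩ := hs.exists_nonneg
    obtain ⟨c2, hc2, ht⟩ := ht.exists_nonneg
    have hb := hs.bound.and ht.bound
    obtain ⟨r, hr, hball⟩ := Metric.eventually_nhds_iff_ball.mp hb
    rw [isBigO_iff]
    refine ⟨c1 + c2, ?_⟩
    filter_upwards [Metric.ball_mem_nhds p hr] with q hq
    set ρ := ‖q - p‖ with hρ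
    have hρ0 : 0 ≤ ρ := norm_nonneg _
    have hρr : ρ < r := by rw [hρ, ← dist_eq_norm]; exact hq
    have hbound : ∀ x ∈ Metric.closedBall p ρ, ‖fderiv ℝ (F : ℝ × ℝ → ℝ) x‖ ≤
        (c1 + c2) * ρ ^ (K + 1) := by
      intro x hx
      have hxr : x ∈ Metric.ball p r :=
        Metric.mem_ball.mpr ((Metric.mem_closedBall.mp hx).trans_lt hρr)
      obtain ⟨b1, b2⟩ := hball x hxr
      have hx' : ‖x - p‖ ≤ ρ := by
        rw [← dist_eq_norm]; exact hx
      have hpow : ‖x - p‖ ^ (K + 1) ≤ ρ ^ (K + 1) := pow_le_pow_left₀ (norm_nonneg _) hx' _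
      rw [Real.norm_eq_abs (‖x - p‖ ^ (K + 1)), abs_of_nonneg (by positivity)] at b1 b2
      refine ContinuousLinearMap.opNorm_le_bound _ (by positivity) fun v => ?_
      have hv : v = v.1 • ((1, 0) : ℝ × ℝ) + v.2 • ((0, 1) : ℝ × ℝ) := by
        ext <;> simp
      have e : fderiv ℝ (F : ℝ × ℝ → ℝ) x v =
          v.1 * fderiv ℝ (F : ℝ × ℝ → ℝ) x (1, 0) + v.2 * fderiv ℝ (F : ℝ × ℝ → ℝ) x (0, 1) := by
        conv_lhs => rw [hv]
        rw [map_add, map_smul, map_smul, smul_eq_mul, smul_eq_mul]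
      rw [e]
      have n1 : |v.1| ≤ ‖v‖ := norm_fst_le v
      have n2 : |v.2| ≤ ‖v‖ := norm_snd_le v
      have m1 : |fderiv ℝ (F : ℝ × ℝ → ℝ) x (1, 0)| ≤ c1 * ρ ^ (K + 1) :=
        b1.trans (mul_le_mul_of_nonneg_left hpow hc1)
      have m2 : |fderiv ℝ (F : ℝ × ℝ → ℝ) x (0, 1)| ≤ c2 * ρ ^ (K + 1) :=
        b2.trans (mul_le_mul_of_nonneg_left hpow hc2)
      calc ‖v.1 * fderiv ℝ (F : ℝ × ℝ → ℝ) x (1, 0) + v.2 * fderiv ℝ (F : ℝ × ℝ → ℝ) x (0, 1)‖
          ≤ |v.1| * |fderiv ℝ (F : ℝ × ℝ → ℝ) x (1, 0)| +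
            |v.2| * |fderiv ℝ (F : ℝ × ℝ → ℝ) x (0, 1)| := by
            rw [← abs_mul, ← abs_mul]
            exact norm_add_le _ _
        _ ≤ ‖v‖ * (c1 * ρ ^ (K + 1)) + ‖v‖ * (c2 * ρ ^ (K + 1)) :=
            add_le_add (mul_le_mul n1 m1 (abs_nonneg _) (norm_nonneg _))
              (mul_le_mul n2 m2 (abs_nonneg _) (norm_nonneg _))
        _ = (c1 + c2) * ρ ^ (K + 1) * ‖v‖ := by ring
    have hmv := (convex_closedBall p ρ).norm_image_sub_le_of_norm_fderiv_le
      (fun x _ => (Sm.differentiable F).differentiableAt) hbound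
      (Metric.mem_closedBall_self hρ0)
      (show q ∈ Metric.closedBall p ρ by rw [Metric.mem_closedBall, dist_eq_norm])
    rw [h0, sub_zero] at hmv
    calc ‖(F : ℝ × ℝ → ℝ) q‖ ≤ (c1 + c2) * ρ ^ (K + 1) * ‖q - p‖ := hmv
      _ = (c1 + c2) * ‖ρ ^ (K + 1 + 1)‖ := by
        rw [Real.norm_eq_abs, abs_of_nonneg (by positivity), pow_succ _ (K + 1)]
        ring

/-- Approximate division. -/
theorem tay_approx (p : ℝ × ℝ) (a c : Sm) (Y : ℝ⟦X⟧⟦X⟧) (h : tay p a = tay p c * Y) (K : ℕ) :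
    (fun q => (a : ℝ × ℝ → ℝ) q - (c : ℝ × ℝ → ℝ) q * (polyOf K p Y : ℝ × ℝ → ℝ) q) =O[𝓝 p]
      (fun q => ‖q - p‖ ^ (K + 1)) := by
  have hv : Van K (tay p (a - c * polyOf K p Y)) := by
    rw [map_sub, map_mul, h, ← mul_sub]
    refine Van.mul_left ?_ _
    intro i j hij
    rw [map_sub, map_sub, coeff_tay_polyOf K p Y (by omega) (by omega), sub_self]
  exact isBigO_of_van p K _ hv

end MP1c24b6
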