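import Pool.Agent.Lib.MP_1c24b6_ag.Flat
import Pool.Agent.Lib.MP_1c24b6_ag.Taylor

/-!
The quotient `a / c` of smooth functions with algebraic germs has a continuous extension as soon
as the Taylor series of `c` divides that of `a` everywhere.
-/

namespace MP1c24b6

open scoped ContDiff
open Filter Topology Asymptotics

/-- Coefficients of the Taylor series along the horizontal slice. -/
noncomputable def sc (p : ℝ × ℝ) (F : Sm) (i : ℕ) : ℝ :=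
  PowerSeries.coeff 0 (PowerSeries.coeff i (tay p F))

lemma Sm.continuous (F : Sm) : Continuous (F : ℝ × ℝ → ℝ) := (Sm.contDiff F).continuous

lemma polyOf_slice (K : ℕ) (p : ℝ × ℝ) (Y : PowerSeries (PowerSeries ℝ)) (q : ℝ × ℝ)
    (hq : q.2 = p.2) : (polyOf K p Y : ℝ × ℝ → ℝ) q =
      ∑ i ∈ Finset.range (K + 1), PowerSeries.coeff 0 (PowerSeries.coeff i Y) *
        (q.1 - p.1) ^ i := by
  rw [polyOf_apply]
  refine Finset.sum_congr rfl fun i _ => ?_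
  rw [Finset.sum_eq_single 0]
  · simp
  · intro b _ hb
    rw [hq, sub_self, zero_pow hb, mul_zero]
  · intro h
    exact absurd (Finset.mem_range.mpr (by omega)) h

lemma polyOf_center (K : ℕ) (p : ℝ × ℝ) (Y : PowerSeries (PowerSeries ℝ)) :
    (polyOf K p Y : ℝ × ℝ → ℝ) p = PowerSeries.coeff 0 (PowerSeries.coeff 0 Y) := by
  rw [polyOf_slice K p Y p rfl, Finset.sum_eq_single 0]
  · simp
  · intro b _ hb
    rw [sub_self, zero_pow hb, mul_zero]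
  · intro h
    exact absurd (Finset.mem_range.mpr (by omega)) h

lemma taylor_self (p : ℝ × ℝ) (F : Sm) (K : ℕ) :
    (fun q => (F : ℝ × ℝ → ℝ) q - (polyOf K p (tay p F) : ℝ × ℝ → ℝ) q) =O[𝓝 p]
      (fun q => ‖q - p‖ ^ (K + 1)) := by
  have h := tay_approx p F 1 (tay p F) (by rw [map_one, one_mul]) K
  have e : ∀ q, ((1 : Sm) : ℝ × ℝ → ℝ) q = 1 := fun q => rfl
  simpa only [e, one_mul] using h

lemma tendsto_slice (p : ℝ × ℝ) : Tendsto (fun s : ℝ => ((s, p.2) : ℝ × ℝ)) (𝓝 p.1) (𝓝 p) := by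
  have : Continuous fun s : ℝ => ((s, p.2) : ℝ × ℝ) := by fun_prop
  exact this.tendsto p.1

lemma norm_slice (p : ℝ × ℝ) (s : ℝ) : ‖((s, p.2) : ℝ × ℝ) - p‖ = |s - p.1| := by
  rw [Prod.norm_def]
  simp

/-- If some slice coefficient is nonzero, there is a lower bound along the slice. -/
lemma slice_lower (p : ℝ × ℝ) (F : Sm) (h : ∃ i, sc p F i ≠ 0) :
    ∃ (k : ℕ) (κ : ℝ), 0 < κ ∧ ∀ᶠ s in 𝓝 p.1, κ * |s - p.1| ^ k ≤ |(F : ℝ × ℝ → ℝ) (s, p.2)| := by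
  classical
  set k := Nat.find h with hk
  have hk0 : sc p F k ≠ 0 := Nat.find_spec h
  have hlt : ∀ i < k, sc p F i = 0 := fun i hi => not_not.mp (Nat.find_min h hi)
  set κ := |sc p F k| / 2 with hκ
  have hκpos : 0 < κ := by positivity
  refine ⟨k, κ, hκpos, ?_⟩
  obtain ⟨M, hM, hb⟩ := (taylor_self p F k).exists_nonneg
  have hb' := (tendsto_slice p).eventually hb.bound
  have hsmall : ∀ᶠ s in 𝓝 p.1, M * |s - p.1| < κ := by
    have : Tendsto (fun s : ℝ => M * |s - p.1|) (𝓝 p.1) (𝓝 0) := by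
      have hc : Continuous fun s : ℝ => M * |s - p.1| := by fun_prop
      simpa using hc.tendsto p.1
    exact this.eventually_lt_const hκpos
  filter_upwards [hb', hsmall] with s h1 h2
  rw [polyOf_slice k p _ (s, p.2) rfl, norm_slice, Finset.sum_range_succ,
    Finset.sum_eq_zero (fun i hi => by
      have := hlt i (Finset.mem_range.mp hi)
      rw [sc] at this
      rw [this, zero_mul]), zero_add] at h1
  change ‖(F : ℝ × ℝ → ℝ) (s, p.2) - sc p F k * (s - p.1) ^ k‖ ≤ _ at h1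
  rw [Real.norm_eq_abs, Real.norm_eq_abs, abs_pow, abs_abs, pow_succ] at h1
  have h3 : |sc p F k * (s - p.1) ^ k| = 2 * κ * |s - p.1| ^ k := by
    rw [abs_mul, abs_pow, hκ]; ring
  have h4 : |sc p F k * (s - p.1) ^ k| - |(F : ℝ × ℝ → ℝ) (s, p.2)| ≤
      |(F : ℝ × ℝ → ℝ) (s, p.2) - sc p F k * (s - p.1) ^ k| := by
    rw [abs_sub_comm]
    exact abs_sub_abs_le_abs_sub _ _
  have h5 : M * (|s - p.1| ^ k * |s - p.1|) ≤ κ * |s - p.1| ^ k := by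
    have : 0 ≤ |s - p.1| ^ k := by positivity
    nlinarith
  rw [h3] at h4
  linarith

/-- Flatness on a slice implies local vanishing on the slice. -/
lemma slice_flat {C : Set ℝ} {F : Sm} (hF : AlgFun C (F : ℝ × ℝ → ℝ)) (p : ℝ × ℝ)
    (h : ∀ i, sc p F i = 0) : ∀ᶠ s in 𝓝 p.1, (F : ℝ × ℝ → ℝ) (s, p.2) = 0 := by
  by_contra hcon
  rw [not_eventually] at hcon
  have hfreq : ∃ᶠ q in 𝓝 p, q.2 = p.2 ∧ (F : ℝ × ℝ → ℝ) q ≠ 0 :=
    (tendsto_slice p).frequently (hcon.mono fun s hs => ⟨rfl, hs⟩)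
  have hne : NeBot (𝓝 p ⊓ 𝓟 {q : ℝ × ℝ | q.2 = p.2 ∧ (F : ℝ × ℝ → ℝ) q ≠ 0}) :=
    frequently_mem_iff_neBot.mp hfreq
  let φ : Ultrafilter (ℝ × ℝ) :=
    Ultrafilter.of (𝓝 p ⊓ 𝓟 {q : ℝ × ℝ | q.2 = p.2 ∧ (F : ℝ × ℝ → ℝ) q ≠ 0})
  have hφ : (φ : Filter (ℝ × ℝ)) ≤ 𝓝 p ⊓ 𝓟 {q : ℝ × ℝ | q.2 = p.2 ∧ (F : ℝ × ℝ → ℝ) q ≠ 0} :=
    Ultrafilter.of_le _
  have hmem : ∀ᶠ q in (φ : Filter (ℝ × ℝ)), q.2 = p.2 ∧ (F : ℝ × ℝ → ℝ) q ≠ 0 :=
    (hφ.trans inf_le_right) (mem_principal_self _)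
  refine not_flat φ hF (hφ.trans inf_le_left) (hmem.mono fun q hq => hq.2) (fun K => ?_)
    (dep_of_slice φ (hmem.mono fun q hq => hq.1))
  have h1 := (taylor_self p F K).mono (hφ.trans inf_le_left)
  have h2 : (F : ℝ × ℝ → ℝ) =O[(φ : Filter (ℝ × ℝ))] (fun q => ‖q - p‖ ^ (K + 1)) := by
    refine h1.congr' ?_ EventuallyEq.rfl
    filter_upwards [hmem] with q hq
    rw [polyOf_slice K p _ q hq.1, Finset.sum_eq_zero, sub_zero]
    intro i _
    have := h i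
    rw [sc] at this
    rw [this, zero_mul]
  refine h2.trans ?_
  have h3 : (fun q : ℝ × ℝ => ‖q - p‖ ^ (K + 1)) =O[𝓝 p] (fun q => ‖q - p‖ ^ K) := by
    have h4 : (fun q : ℝ × ℝ => ‖q - p‖) =O[𝓝 p] (fun _ => (1 : ℝ)) := by
      have hc : Continuous fun q : ℝ × ℝ => ‖q - p‖ := by fun_prop
      exact (hc.tendsto p).isBigO_one ℝ
    have h5 := (isBigO_refl (fun q : ℝ × ℝ => ‖q - p‖ ^ K) (𝓝 p)).mul h4
    simpa only [pow_succ, mul_one] using h5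
  exact h3.mono (hφ.trans inf_le_left)

/-- A function with algebraic germs which is nonzero somewhere on each slice is nowhere flat. -/
theorem nowhere_flat {C : Set ℝ} {F : Sm} (hF : AlgFun C (F : ℝ × ℝ → ℝ))
    (hfar : ∀ t, ∃ s, (F : ℝ × ℝ → ℝ) (s, t) ≠ 0) (p : ℝ × ℝ) : ∃ i, sc p F i ≠ 0 := by
  by_contra hcon
  push Not at hcon
  set Z : Set ℝ := {s₀ | ∀ᶠ s in 𝓝 s₀, (F : ℝ × ℝ → ℝ) (s, p.2) = 0} with hZ
  have hpZ : p.1 ∈ Z := slice_flat hF p hcon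
  have hopen : IsOpen Z := by
    rw [isOpen_iff_mem_nhds]
    intro s hs
    exact eventually_eventually_nhds.mpr hs
  have hclosed : IsClosed Z := by
    rw [← closure_subset_iff_isClosed]
    intro s₀ hs₀
    by_contra hs
    have hnz : ∃ i, sc (s₀, p.2) F i ≠ 0 := by
      by_contra h
      push Not at h
      exact hs (slice_flat hF (s₀, p.2) h)
    obtain ⟨k, κ, hκ, hlow⟩ := slice_lower _ _ hnz
    simp only at hlow
    have hfreq : ∃ᶠ s in 𝓝 s₀, s ∈ Z := mem_closure_iff_frequently.mp hs₀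
    obtain ⟨s, hsZ, hb⟩ := (hfreq.and_eventually hlow).exists
    have h0 : (F : ℝ × ℝ → ℝ) (s, p.2) = 0 := hsZ.self_of_nhds
    rw [h0, abs_zero] at hb
    have hne : s ≠ s₀ := by
      rintro rfl
      exact hs hsZ
    have : 0 < κ * |s - s₀| ^ k := mul_pos hκ (pow_pos (abs_pos.mpr (sub_ne_zero.mpr hne)) k)
    linarith
  have huniv : Z = Set.univ := by
    rcases isClopen_iff.mp ⟨hclosed, hopen⟩ with h | h
    · exact absurd hpZ (by rw [h]; exact Set.notMem_empty _)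
    · exact h
  obtain ⟨s, hs⟩ := hfar p.2
  have : s ∈ Z := by rw [huniv]; exact Set.mem_univ s
  exact hs this.self_of_nhds

lemma slice_ne {C : Set ℝ} {F : Sm} (hF : AlgFun C (F : ℝ × ℝ → ℝ))
    (hfar : ∀ t, ∃ s, (F : ℝ × ℝ → ℝ) (s, t) ≠ 0) (p : ℝ × ℝ) :
    ∀ᶠ s in 𝓝[≠] p.1, (F : ℝ × ℝ → ℝ) (s, p.2) ≠ 0 := by
  obtain ⟨k, κ, hκ, hlow⟩ := slice_lower _ _ (nowhere_flat hF hfar p)
  filter_upwards [hlow.filter_mono nhdsWithin_le_nhds, self_mem_nhdsWithin] with s hs hne h0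
  rw [h0, abs_zero] at hs
  have : 0 < κ * |s - p.1| ^ k := mul_pos hκ (pow_pos (abs_pos.mpr (sub_ne_zero.mpr hne)) k)
  linarith

/-- The value of a double power series at the origin. -/
noncomputable def v0 (Y : PowerSeries (PowerSeries ℝ)) : ℝ :=
  PowerSeries.coeff 0 (PowerSeries.coeff 0 Y)

/-- The limit of the quotient along slices. -/
lemma slice_limit {C : Set ℝ} {a c : Sm} (hc : AlgFun C (c : ℝ × ℝ → ℝ))
    (hfar : ∀ t, ∃ s, (c : ℝ × ℝ → ℝ) (s, t) ≠ 0) (p : ℝ × ℝ)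
    (Y : PowerSeries (PowerSeries ℝ)) (hY : tay p a = tay p c * Y) :
    Tendsto (fun s => (a : ℝ × ℝ → ℝ) (s, p.2) / (c : ℝ × ℝ → ℝ) (s, p.2)) (𝓝[≠] p.1)
      (𝓝 (v0 Y)) := by
  obtain ⟨k, κ, hκ, hlow⟩ := slice_lower _ _ (nowhere_flat hc hfar p)
  obtain ⟨M, hM, hb⟩ := (tay_approx p a c Y hY k).exists_nonneg
  have hb' := (tendsto_slice p).eventually hb.bound
  set P : ℝ → ℝ := fun s => (polyOf k p Y : ℝ × ℝ → ℝ) (s, p.2) with hP
  have hPc : Tendsto P (𝓝[≠] p.1) (𝓝 (v0 Y)) := by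
    have h1 : Continuous P := (Sm.continuous (polyOf k p Y)).comp (by fun_prop)
    have h2 : P p.1 = v0 Y := polyOf_center k p Y
    rw [← h2]
    exact (h1.tendsto p.1).mono_left nhdsWithin_le_nhds
  have hdiff : Tendsto (fun s => (a : ℝ × ℝ → ℝ) (s, p.2) / (c : ℝ × ℝ → ℝ) (s, p.2) - P s)
      (𝓝[≠] p.1) (𝓝 0) := by
    have hbd : Tendsto (fun s : ℝ => M / κ * |s - p.1|) (𝓝[≠] p.1) (𝓝 0) := by
      have hcc : Continuous fun s : ℝ => M / κ * |s - p.1| := by fun_prop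
      have := (hcc.tendsto p.1).mono_left (nhdsWithin_le_nhds (s := {p.1}ᶜ))
      simpa using this
    refine squeeze_zero_norm' ?_ hbd
    filter_upwards [hb'.filter_mono nhdsWithin_le_nhds, hlow.filter_mono nhdsWithin_le_nhds,
      self_mem_nhdsWithin] with s h1 h2 hne
    have hpos : 0 < |s - p.1| := abs_pos.mpr (sub_ne_zero.mpr hne)
    have hcpos : 0 < |(c : ℝ × ℝ → ℝ) (s, p.2)| := (mul_pos hκ (pow_pos hpos k)).trans_le h2
    have hc0 : (c : ℝ × ℝ → ℝ) (s, p.2) ≠ 0 := abs_pos.mp hcpos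
    rw [norm_slice, Real.norm_eq_abs, Real.norm_eq_abs, abs_pow, abs_abs, pow_succ] at h1
    have e : (a : ℝ × ℝ → ℝ) (s, p.2) / (c : ℝ × ℝ → ℝ) (s, p.2) - P s =
        ((a : ℝ × ℝ → ℝ) (s, p.2) - (c : ℝ × ℝ → ℝ) (s, p.2) * P s) /
          (c : ℝ × ℝ → ℝ) (s, p.2) := by
      field_simp
    rw [e, Real.norm_eq_abs, abs_div, div_le_iff₀ hcpos]
    calc |(a : ℝ × ℝ → ℝ) (s, p.2) - (c : ℝ × ℝ → ℝ) (s, p.2) * P s|
        ≤ M * (|s - p.1| ^ k * |s - p.1|) := h1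
      _ = M / κ * |s - p.1| * (κ * |s - p.1| ^ k) := by field_simp
      _ ≤ M / κ * |s - p.1| * |(c : ℝ × ℝ → ℝ) (s, p.2)| :=
          mul_le_mul_of_nonneg_left h2 (by positivity)
  have := hdiff.add hPc
  simpa using this

/-- Near `p` the quotient avoids transcendental values different from the value at `p`. -/
lemma avoid {C : Set ℝ} {a c : Sm} (ha : AlgFun C (a : ℝ × ℝ → ℝ))
    (hc : AlgFun C (c : ℝ × ℝ → ℝ)) (p : ℝ × ℝ)
    (Y : PowerSeries (PowerSeries ℝ)) (hY : tay p a = tay p c * Y) {r : ℝ} (hr : r ∉ cl C)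
    (hrY : r ≠ v0 Y) :
    ∀ᶠ q in 𝓝 p, (c : ℝ × ℝ → ℝ) q ≠ 0 → (a : ℝ × ℝ → ℝ) q ≠ r * (c : ℝ × ℝ → ℝ) q := by
  by_contra hcon
  rw [not_eventually] at hcon
  set B : Set (ℝ × ℝ) := {q | (c : ℝ × ℝ → ℝ) q ≠ 0 ∧
    (a : ℝ × ℝ → ℝ) q = r * (c : ℝ × ℝ → ℝ) q} with hB
  have hfreq : ∃ᶠ q in 𝓝 p, q ∈ B := hcon.mono fun q hq => by
    push Not at hq
    exact hq
  have hne : NeBot (𝓝 p ⊓ 𝓟 B) := frequently_mem_iff_neBot.mp hfreq
  let φ : Ultrafilter (ℝ × ℝ) := Ultrafilter.of (𝓝 p ⊓ 𝓟 B)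
  have hφ : (φ : Filter (ℝ × ℝ)) ≤ 𝓝 p ⊓ 𝓟 B := Ultrafilter.of_le _
  have hmem : ∀ᶠ q in (φ : Filter (ℝ × ℝ)), q ∈ B := (hφ.trans inf_le_right) (mem_principal_self _)
  have hφp : (φ : Filter (ℝ × ℝ)) ≤ 𝓝 p := hφ.trans inf_le_left
  have hdep : Dep φ := dep_of_ratio φ ha hc hr (hmem.mono fun q hq => hq.2)
    (hmem.mono fun q hq => hq.1)
  refine not_flat φ hc hφp (hmem.mono fun q hq => hq.1) (fun K => ?_) hdep
  set δ : ℝ := |r - v0 Y| / 2 with hδ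
  have hδpos : 0 < δ := by
    have : 0 < |r - v0 Y| := abs_pos.mpr (sub_ne_zero.mpr hrY)
    positivity
  obtain ⟨M, hM, hb⟩ := (tay_approx p a c Y hY K).exists_nonneg
  have hP : Tendsto (fun q => (polyOf K p Y : ℝ × ℝ → ℝ) q) (𝓝 p) (𝓝 (v0 Y)) := by
    have h2 : (polyOf K p Y : ℝ × ℝ → ℝ) p = v0 Y := polyOf_center K p Y
    rw [← h2]
    exact (Sm.continuous (polyOf K p Y)).tendsto p
  have hP' : ∀ᶠ q in 𝓝 p, δ ≤ |r - (polyOf K p Y : ℝ × ℝ → ℝ) q| := by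
    have h1 : Tendsto (fun q => |r - (polyOf K p Y : ℝ × ℝ → ℝ) q|) (𝓝 p) (𝓝 |r - v0 Y|) :=
      (hP.const_sub r).abs
    exact h1.eventually_const_le (by rw [hδ]; linarith)
  have hsm : ∀ᶠ q in 𝓝 p, ‖q - p‖ ≤ 1 := by
    have hcc : Continuous fun q : ℝ × ℝ => ‖q - p‖ := by fun_prop
    have := hcc.tendsto p
    simp only [sub_self, norm_zero] at this
    exact (this.eventually_lt_const one_pos).mono fun q hq => hq.le
  rw [isBigO_iff]
  refine ⟨M / δ, ?_⟩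
  filter_upwards [hmem, hφp hb.bound, hφp hP', hφp hsm] with q h1 h2 h3 h4
  have e : (a : ℝ × ℝ → ℝ) q - (c : ℝ × ℝ → ℝ) q * (polyOf K p Y : ℝ × ℝ → ℝ) q =
      (c : ℝ × ℝ → ℝ) q * (r - (polyOf K p Y : ℝ × ℝ → ℝ) q) := by
    rw [h1.2]; ring
  have h2' : |(a : ℝ × ℝ → ℝ) q - (c : ℝ × ℝ → ℝ) q * (polyOf K p Y : ℝ × ℝ → ℝ) q| ≤
      M * |‖q - p‖ ^ (K + 1)| := h2
  rw [e, abs_mul, abs_of_nonneg (by positivity : 0 ≤ ‖q - p‖ ^ (K + 1))] at h2'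
  have h3' : δ ≤ |r - (polyOf K p Y : ℝ × ℝ → ℝ) q| := h3
  have h4' : ‖q - p‖ ≤ 1 := h4
  rw [Real.norm_eq_abs, Real.norm_eq_abs, abs_of_nonneg (by positivity : 0 ≤ ‖q - p‖ ^ K)]
  have h5 : ‖q - p‖ ^ (K + 1) ≤ ‖q - p‖ ^ K := by
    rw [pow_succ]
    exact mul_le_of_le_one_right (by positivity) h4'
  rw [div_mul_eq_mul_div, le_div_iff₀ hδpos]
  calc |(c : ℝ × ℝ → ℝ) q| * δ ≤
        |(c : ℝ × ℝ → ℝ) q| * |r - (polyOf K p Y : ℝ × ℝ → ℝ) q| :=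
        mul_le_mul_of_nonneg_left h3' (abs_nonneg _)
    _ ≤ M * ‖q - p‖ ^ (K + 1) := h2'
    _ ≤ M * ‖q - p‖ ^ K := mul_le_mul_of_nonneg_left h5 hM

/-- Upper semicontinuity of the quotient. -/
lemma upper {C : Set ℝ} (hC : C.Countable) {a c : Sm} (ha : AlgFun C (a : ℝ × ℝ → ℝ))
    (hc : AlgFun C (c : ℝ × ℝ → ℝ)) (hfar : ∀ t, ∃ s, (c : ℝ × ℝ → ℝ) (s, t) ≠ 0)
    (hdvd : ∀ p, tay p c ∣ tay p a) (p : ℝ × ℝ)
    (Y : PowerSeries (PowerSeries ℝ)) (hY : tay p a = tay p c * Y) {ε : ℝ} (hε : 0 < ε) :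
    ∀ᶠ q in 𝓝 p, (c : ℝ × ℝ → ℝ) q ≠ 0 →
      (a : ℝ × ℝ → ℝ) q / (c : ℝ × ℝ → ℝ) q < v0 Y + ε := by
  classical
  set x₀ := v0 Y with hx₀
  -- transcendental values
  set Λ : Set ℝ := Set.Ioo (x₀ + ε / 3) (x₀ + 2 * ε / 3) \ cl C with hΛ
  have hΛunc : ¬ Λ.Countable := by
    intro h
    have h1 : (Set.Ioo (x₀ + ε / 3) (x₀ + 2 * ε / 3)).Countable := by
      refine (h.union (cl_countable hC)).mono ?_
      intro x hx
      by_cases hxc : x ∈ cl C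
      · exact Or.inr hxc
      · exact Or.inl ⟨hx, hxc⟩
    have h2 : x₀ + ε / 3 < x₀ + 2 * ε / 3 := by linarith
    exact (not_le.mpr (Cardinal.aleph0_lt_continuum)) (by
      rw [← Cardinal.mk_Ioo_real h2]
      exact Cardinal.mk_le_aleph0_iff.mpr h1.to_subtype)
  let Λn : ℕ → Set ℝ := fun n => {r ∈ Λ | ∀ q ∈ Metric.ball p (1 / ((n : ℝ) + 1)),
    (c : ℝ × ℝ → ℝ) q ≠ 0 → (a : ℝ × ℝ → ℝ) q ≠ r * (c : ℝ × ℝ → ℝ) q}
  have hcover : Λ ⊆ ⋃ n, Λn n := by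
    intro r hr
    have hrY : r ≠ v0 Y := by
      have := hr.1.1
      intro h
      rw [h, ← hx₀] at this
      linarith
    obtain ⟨δ, hδ, hball⟩ := Metric.eventually_nhds_iff_ball.mp (avoid ha hc p Y hY hr.2 hrY)
    obtain ⟨n, hn⟩ := exists_nat_one_div_lt hδ
    exact Set.mem_iUnion.mpr ⟨n, hr, fun q hq => hball q (Metric.ball_subset_ball hn.le hq)⟩
  obtain ⟨n, hn⟩ : ∃ n, ¬ (Λn n).Countable := by
    by_contra h
    push Not at h
    exact hΛunc ((Set.countable_iUnion h).mono hcover)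
  have hinf : (Λn n).Infinite := fun h => hn h.countable
  set r : ℝ := 1 / ((n : ℝ) + 1) with hr
  have hrpos : 0 < r := by positivity
  -- a good point on the slice
  have hlim := slice_limit hc hfar p Y hY
  have hev : ∀ᶠ s in 𝓝[≠] p.1, (a : ℝ × ℝ → ℝ) (s, p.2) / (c : ℝ × ℝ → ℝ) (s, p.2) <
      x₀ + ε / 3 := hlim.eventually_lt_const (by rw [← hx₀]; linarith)
  have hball1 : ∀ᶠ s in 𝓝[≠] p.1, s ∈ Metric.ball p.1 r :=
    nhdsWithin_le_nhds (Metric.ball_mem_nhds p.1 hrpos)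
  obtain ⟨s₁, h1, h2, h3⟩ := (hev.and ((slice_ne hc hfar p).and hball1)).exists
  have hcont : ContinuousAt (fun t : ℝ => (a : ℝ × ℝ → ℝ) (s₁, t) / (c : ℝ × ℝ → ℝ) (s₁, t))
      p.2 := by
    refine ContinuousAt.div ?_ ?_ h2
    · exact ((Sm.continuous a).comp (by fun_prop : Continuous fun t : ℝ => (s₁, t))).continuousAt
    · exact ((Sm.continuous c).comp (by fun_prop : Continuous fun t : ℝ => (s₁, t))).continuousAt
  have hcontc : ContinuousAt (fun t : ℝ => (c : ℝ × ℝ → ℝ) (s₁, t)) p.2 :=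
    ((Sm.continuous c).comp (by fun_prop : Continuous fun t : ℝ => (s₁, t))).continuousAt
  have hev2 : ∀ᶠ t in 𝓝 p.2, (a : ℝ × ℝ → ℝ) (s₁, t) / (c : ℝ × ℝ → ℝ) (s₁, t) < x₀ + ε / 3 :=
    hcont.eventually_lt_const h1
  have hev3 : ∀ᶠ t in 𝓝 p.2, (c : ℝ × ℝ → ℝ) (s₁, t) ≠ 0 := hcontc.eventually_ne h2
  have hev2' : ∀ᶠ q in 𝓝 p, (a : ℝ × ℝ → ℝ) (s₁, q.2) / (c : ℝ × ℝ → ℝ) (s₁, q.2) <
      x₀ + ε / 3 := (continuous_snd.tendsto p).eventually hev2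
  have hev3' : ∀ᶠ q in 𝓝 p, (c : ℝ × ℝ → ℝ) (s₁, q.2) ≠ 0 :=
    (continuous_snd.tendsto p).eventually hev3
  filter_upwards [hev2', hev3', Metric.ball_mem_nhds p hrpos] with q hq1 hq2 hq3 hcq
  by_contra hge
  push Not at hge
  set t := q.2 with ht
  choose Z hZ using hdvd
  -- the continuous extension along the slice
  set ξ : ℝ → ℝ := fun s => if (c : ℝ × ℝ → ℝ) (s, t) ≠ 0 then
    (a : ℝ × ℝ → ℝ) (s, t) / (c : ℝ × ℝ → ℝ) (s, t) else v0 (Z (s, t)) with hξ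
  have hξc : Continuous ξ := by
    rw [continuous_iff_continuousAt]
    intro s
    have hl := slice_limit hc hfar (s, t) (Z (s, t)) (hZ (s, t))
    have hne := slice_ne hc hfar (s, t)
    simp only at hl hne
    have hξl : Tendsto ξ (𝓝[≠] s) (𝓝 (v0 (Z (s, t)))) := by
      refine hl.congr' ?_
      filter_upwards [hne] with s' hs'
      rw [hξ]
      simp only [if_pos hs']
    have hval : ξ s = v0 (Z (s, t)) := by
      by_cases h0 : (c : ℝ × ℝ → ℝ) (s, t) ≠ 0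
      · have hcat : ContinuousAt (fun s' : ℝ => (a : ℝ × ℝ → ℝ) (s', t) /
            (c : ℝ × ℝ → ℝ) (s', t)) s := by
          refine ContinuousAt.div ?_ ?_ h0
          · exact ((Sm.continuous a).comp
              (by fun_prop : Continuous fun s' : ℝ => (s', t))).continuousAt
          · exact ((Sm.continuous c).comp
              (by fun_prop : Continuous fun s' : ℝ => (s', t))).continuousAt
        have h5 := tendsto_nhds_unique (hcat.tendsto.mono_left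
          (nhdsWithin_le_nhds (s := {s}ᶜ))) hl
        rw [hξ]
        simp only [if_pos h0]
        exact h5
      · rw [hξ]
        simp only [if_neg h0]
    rw [← hval] at hξl
    rw [continuousAt_iff_punctured_nhds]
    exact hξl
  -- the segment stays in the ball
  have hseg : ∀ s ∈ Set.uIcc s₁ q.1, ((s, t) : ℝ × ℝ) ∈ Metric.ball p r := by
    intro s hs
    have hq4 : dist q.1 p.1 < r ∧ dist q.2 p.2 < r := by
      have := Metric.mem_ball.mp hq3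
      rw [Prod.dist_eq] at this
      exact max_lt_iff.mp this
    have hs' : s ∈ Metric.ball p.1 r :=
      ((convex_ball p.1 r).ordConnected.uIcc_subset h3 (Metric.mem_ball.mpr hq4.1)) hs
    rw [Metric.mem_ball, Prod.dist_eq]
    exact max_lt (Metric.mem_ball.mp hs') hq4.2
  -- zeros on the segment
  set N : Set ℝ := {s | (c : ℝ × ℝ → ℝ) (s, t) = 0} ∩ Set.uIcc s₁ q.1 with hN
  have hNfin : N.Finite := by
    by_contra hNinf
    obtain ⟨x, hx, hacc⟩ := Set.Infinite.exists_accPt_of_subset_isCompact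
      (s := N) hNinf isCompact_uIcc Set.inter_subset_right
    have hfr := accPt_iff_frequently_nhdsNE.mp hacc
    have hne := slice_ne hc hfar (x, t)
    simp only at hne
    obtain ⟨s, hs, hs'⟩ := (hfr.and_eventually hne).exists
    exact hs' hs.1
  refine hinf ((hNfin.image ξ).subset ?_)
  intro l hl
  have hlΛ : l ∈ Set.Ioo (x₀ + ε / 3) (x₀ + 2 * ε / 3) := hl.1.1
  have hξ1 : ξ s₁ < x₀ + ε / 3 := by
    rw [hξ]
    simp only [if_pos hq2]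
    exact hq1
  have hξ2 : x₀ + ε ≤ ξ q.1 := by
    rw [hξ]
    have : ((q.1, t) : ℝ × ℝ) = q := rfl
    simp only [this, if_pos hcq]
    exact hge
  have hiv := intermediate_value_uIcc (a := s₁) (b := q.1) hξc.continuousOn
  have hl' : l ∈ Set.uIcc (ξ s₁) (ξ q.1) := by
    rw [Set.uIcc_of_le (by linarith)]
    constructor
    · linarith [hlΛ.1]
    · linarith [hlΛ.2]
  obtain ⟨s, hs, hsl⟩ := hiv hl'
  refine ⟨s, ⟨?_, hs⟩, hsl⟩
  by_contra h0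
  have h0' : (c : ℝ × ℝ → ℝ) (s, t) ≠ 0 := h0
  rw [hξ] at hsl
  simp only [if_pos h0'] at hsl
  refine hl.2 (s, t) (hseg s hs) h0' ?_
  rw [← hsl]
  field_simp

/-- Existence of the limit of the quotient at every point. -/
theorem limit_exists {C : Set ℝ} (hC : C.Countable) {a c : Sm} (ha : AlgFun C (a : ℝ × ℝ → ℝ))
    (hc : AlgFun C (c : ℝ × ℝ → ℝ)) (hfar : ∀ t, ∃ s, (c : ℝ × ℝ → ℝ) (s, t) ≠ 0)
    (hdvd : ∀ p, tay p c ∣ tay p a) (p : ℝ × ℝ) :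
    ∃ x, Tendsto (fun q => (a : ℝ × ℝ → ℝ) q / (c : ℝ × ℝ → ℝ) q)
      (𝓝[{q | (c : ℝ × ℝ → ℝ) q ≠ 0}] p) (𝓝 x) := by
  obtain ⟨Y, hY⟩ := hdvd p
  have ha' : AlgFun C (((-a : Sm)) : ℝ × ℝ → ℝ) := ha.neg
  have hdvd' : ∀ p, tay p c ∣ tay p (-a) := fun p => by
    rw [map_neg]
    exact (hdvd p).neg_right
  have hY' : tay p (-a) = tay p c * (-Y) := by rw [map_neg, hY]; ring
  have hv : v0 (-Y) = -v0 Y := by simp [v0]
  refine ⟨v0 Y, ?_⟩
  rw [Metric.tendsto_nhds]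
  intro ε hε
  have h1 := upper hC ha hc hfar hdvd p Y hY hε
  have h2 := upper hC ha' hc hfar hdvd' p (-Y) hY' hε
  rw [eventually_nhdsWithin_iff]
  filter_upwards [h1, h2] with q hq1 hq2 hq
  have h3 := hq1 hq
  have h4 := hq2 hq
  have e : (((-a : Sm)) : ℝ × ℝ → ℝ) q = -(a : ℝ × ℝ → ℝ) q := rfl
  rw [e, hv, neg_div] at h4
  rw [Real.dist_eq, abs_lt]
  constructor
  · linarith
  · linarith

/-- The set of points where `c` does not vanish is dense. -/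
lemma dense_ne {C : Set ℝ} {c : Sm} (hc : AlgFun C (c : ℝ × ℝ → ℝ))
    (hfar : ∀ t, ∃ s, (c : ℝ × ℝ → ℝ) (s, t) ≠ 0) :
    Dense {q | (c : ℝ × ℝ → ℝ) q ≠ 0} := by
  intro p
  rw [mem_closure_iff_frequently]
  have h1 := (slice_ne hc hfar p).frequently
  have h2 : Tendsto (fun s : ℝ => ((s, p.2) : ℝ × ℝ)) (𝓝[≠] p.1) (𝓝 p) :=
    (tendsto_slice p).mono_left nhdsWithin_le_nhds
  exact h2.frequently h1

end MP1c24b6
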