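import Mathlib

/-!
Definitions for MP_1c24b6_ag: semialgebraic sets, Nash maps, (N,0)-approximation target
spaces, local connectedness by analytic paths.
-/

namespace MP1c24b6

open scoped ContDiff

/-- Semialgebraic subsets of `ℝ^n`: the smallest Boolean algebra of subsets containing all the
sets `{0 < P}` with `P` a real polynomial. -/
inductive IsSemialg {n : ℕ} : Set (Fin n → ℝ) → Prop
  | pos (P : MvPolynomial (Fin n) ℝ) : IsSemialg {x | 0 < MvPolynomial.eval x P}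
  | compl {A : Set (Fin n → ℝ)} : IsSemialg A → IsSemialg Aᶜ
  | inter {A B : Set (Fin n → ℝ)} : IsSemialg A → IsSemialg B → IsSemialg (A ∩ B)

/-- The map `f : S → ℝ^n` is semialgebraic: its graph is a semialgebraic subset of `ℝ^(m+n)`. -/
def SemialgMapOn {m n : ℕ} (S : Set (Fin m → ℝ)) (f : (Fin m → ℝ) → (Fin n → ℝ)) : Prop :=
  IsSemialg {z : Fin (m + n) → ℝ | ∃ x ∈ S, z = Fin.append x (f x)}

/-- The function `h : S → ℝ` is semialgebraic: its graph is a semialgebraic subset of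
`ℝ^(m+1)`. -/
def SemialgFunOn {m : ℕ} (S : Set (Fin m → ℝ)) (h : (Fin m → ℝ) → ℝ) : Prop :=
  IsSemialg {z : Fin (m + 1) → ℝ | ∃ x ∈ S, z = Fin.snoc x (h x)}

/-- Nash functions on the (open semialgebraic) set `Ω`: smooth and semialgebraic. -/
def NashOn {m : ℕ} (Ω : Set (Fin m → ℝ)) (h : (Fin m → ℝ) → ℝ) : Prop :=
  ContDiffOn ℝ ∞ h Ω ∧ SemialgFunOn Ω h

/-- Nash maps `S → T`: maps each of whose components is the restriction of a Nash function
defined on some open semialgebraic set containing `S`. -/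
def NashMap {m n : ℕ} (S : Set (Fin m → ℝ)) (T : Set (Fin n → ℝ))
    (g : (Fin m → ℝ) → (Fin n → ℝ)) : Prop :=
  Set.MapsTo g S T ∧ ∀ i : Fin n, ∃ (Ω : Set (Fin m → ℝ)) (h : (Fin m → ℝ) → ℝ),
    IsOpen Ω ∧ IsSemialg Ω ∧ S ⊆ Ω ∧ NashOn Ω h ∧ ∀ x ∈ S, g x i = h x

/-- `T` is an `(𝒩,0)`-approximation target space: Nash maps `S → T` are dense in the space of
continuous semialgebraic maps `S → T`, for each locally compact semialgebraic set `S`. -/
def IsATS {n : ℕ} (T : Set (Fin n → ℝ)) : Prop :=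
  ∀ m : ℕ, 1 ≤ m → ∀ S : Set (Fin m → ℝ), S.Nonempty → IsSemialg S → LocallyCompactSpace S →
    ∀ f : (Fin m → ℝ) → (Fin n → ℝ), Set.MapsTo f S T → ContinuousOn f S → SemialgMapOn S f →
    ∀ ε : (Fin m → ℝ) → ℝ, (∀ x ∈ S, 0 < ε x) → ContinuousOn ε S → SemialgFunOn S ε →
    ∃ g : (Fin m → ℝ) → (Fin n → ℝ), NashMap S T g ∧
      ∀ x ∈ S, Real.sqrt (∑ i, (g x i - f x i) ^ 2) < ε x

/-- `x` and `y` are joined in `A` by an analytic path: a map `[0,1] → A` which extends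
real-analytically to an open interval around `[0,1]`. -/
def JoinedAnalytic {n : ℕ} (A : Set (Fin n → ℝ)) (x y : Fin n → ℝ) : Prop :=
  ∃ (δ : ℝ) (α : ℝ → (Fin n → ℝ)), 0 < δ ∧ AnalyticOnNhd ℝ α (Set.Ioo (-δ) (1 + δ)) ∧
    (∀ t ∈ Set.Icc (0 : ℝ) 1, α t ∈ A) ∧ α 0 = x ∧ α 1 = y

/-- `A` is connected by analytic paths. -/
def ConnAnalytic {n : ℕ} (A : Set (Fin n → ℝ)) : Prop :=
  ∀ x ∈ A, ∀ y ∈ A, JoinedAnalytic A x y

/-- `T` is locally connected by analytic paths. -/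
def LocConnAnalytic {n : ℕ} (T : Set (Fin n → ℝ)) : Prop :=
  ∀ x ∈ T, ∀ U : Set (Fin n → ℝ), IsOpen U → x ∈ U →
    ∃ W : Set (Fin n → ℝ), IsOpen W ∧ IsSemialg W ∧ x ∈ W ∧ W ⊆ U ∧ ConnAnalytic (T ∩ W)

/-- The graph of the `l⁴` norm. -/
def T4 : Set (Fin 3 → ℝ) := {p | p 2 ^ 4 = p 0 ^ 4 + p 1 ^ 4 ∧ 0 ≤ p 2}

end MP1c24b6
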