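import Pool.Agent.Lib.MP_1c24b6_ag.Cl

/-!
A valuation argument: an element which is smaller than all powers of an infinitesimal `ρ` and is
algebraic over `ℝ(ρ)` vanishes.
-/

namespace MP1c24b6

section Val

variable {K : Type*} [Field K] [LinearOrder K] [IsStrictOrderedRing K] (ι : ℝ →+* K)

lemma map_nonneg' {r : ℝ} (hr : 0 ≤ r) : 0 ≤ ι r := by
  have : r = Real.sqrt r * Real.sqrt r := (Real.mul_self_sqrt hr).symm
  rw [this, map_mul]
  exact mul_self_nonneg _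

lemma map_le' {r s : ℝ} (h : r ≤ s) : ι r ≤ ι s := by
  have := map_nonneg' ι (sub_nonneg.mpr h)
  rw [map_sub] at this
  exact sub_nonneg.mp this

lemma abs_map' (r : ℝ) : |ι r| = ι |r| := by
  rcases le_total 0 r with h | h
  · rw [abs_of_nonneg h, abs_of_nonneg (map_nonneg' ι h)]
  · rw [abs_of_nonpos h, abs_of_nonpos, map_neg]
    have := map_nonneg' ι (neg_nonneg.mpr h)
    rw [map_neg] at this
    exact neg_nonneg.mp this

lemma map_pos' {r : ℝ} (hr : 0 < r) : 0 < ι r :=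
  lt_of_le_of_ne (map_nonneg' ι hr.le) (by
    rw [Ne, eq_comm, map_eq_zero]
    exact hr.ne')

variable {ρ : K}

lemma poly_bound (hρ : ∀ r : ℝ, 0 < r → |ρ| < ι r) (q : Polynomial ℝ) :
    ∃ M : ℝ, 0 < M ∧ |q.eval₂ ι ρ| ≤ ι M := by
  induction q using Polynomial.induction_on' with
  | add p q hp hq =>
    obtain ⟨M, hM, h1⟩ := hp
    obtain ⟨N, hN, h2⟩ := hq
    refine ⟨M + N, add_pos hM hN, ?_⟩
    rw [Polynomial.eval₂_add, map_add]
    exact (abs_add_le _ _).trans (add_le_add h1 h2)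
  | monomial n a =>
    refine ⟨|a| + 1, by positivity, ?_⟩
    rw [Polynomial.eval₂_monomial, abs_mul, abs_pow, abs_map']
    have h1 : |ρ| ≤ 1 := by
      have := hρ 1 one_pos
      rw [map_one] at this
      exact this.le
    have h2 : |ρ| ^ n ≤ 1 := pow_le_one₀ (abs_nonneg _) h1
    calc ι |a| * |ρ| ^ n ≤ ι |a| * 1 :=
          mul_le_mul_of_nonneg_left h2 (map_nonneg' ι (abs_nonneg a))
      _ ≤ ι (|a| + 1) := by
          rw [mul_one]
          exact map_le' ι (by linarith)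

/-- Nonzero polynomials in an infinitesimal are not too small. -/
lemma poly_lower (hρ0 : ρ ≠ 0) (hρ : ∀ r : ℝ, 0 < r → |ρ| < ι r) (q : Polynomial ℝ)
    (hq : q ≠ 0) : ∃ k : ℕ, |ρ| ^ k < |q.eval₂ ι ρ| := by
  have hρpos : 0 < |ρ| := abs_pos.mpr hρ0
  obtain ⟨r, hr, hr'⟩ := Polynomial.exists_eq_pow_rootMultiplicity_mul_and_not_dvd q hq 0
  set m := Polynomial.rootMultiplicity 0 q
  have hr0 : r.coeff 0 ≠ 0 := by
    intro h0
    apply hr'
    rw [map_zero, sub_zero]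
    exact Polynomial.X_dvd_iff.mpr h0
  obtain ⟨M, hM, hMb⟩ := poly_bound ι hρ r.divX
  have hdecomp : r.eval₂ ι ρ = ρ * r.divX.eval₂ ι ρ + ι (r.coeff 0) := by
    conv_lhs => rw [← Polynomial.X_mul_divX_add r]
    rw [Polynomial.eval₂_add, Polynomial.eval₂_mul, Polynomial.eval₂_X, Polynomial.eval₂_C]
  set δ : ℝ := |r.coeff 0| / 2 with hδ
  have hδpos : 0 < δ := by positivity
  have h1 : |ρ * r.divX.eval₂ ι ρ| ≤ ι δ := by
    rw [abs_mul]
    have h2 : |ρ| < ι (δ / M) := hρ _ (by positivity)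
    calc |ρ| * |r.divX.eval₂ ι ρ| ≤ ι (δ / M) * ι M :=
          mul_le_mul h2.le hMb (abs_nonneg _) (map_nonneg' ι (by positivity))
      _ = ι δ := by rw [← map_mul, div_mul_cancel₀ _ hM.ne']
  have h2 : ι δ ≤ |r.eval₂ ι ρ| := by
    rw [hdecomp]
    have h3 : |ι (r.coeff 0)| = ι δ + ι δ := by
      rw [abs_map', ← map_add, hδ]
      congr 1
      ring
    have h4 := abs_sub_abs_le_abs_sub (ι (r.coeff 0)) (-(ρ * r.divX.eval₂ ι ρ))
    rw [abs_neg, sub_neg_eq_add, h3, add_comm (ι (r.coeff 0))] at h4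
    linarith
  refine ⟨m + 1, ?_⟩
  rw [hr, Polynomial.eval₂_mul, abs_mul, Polynomial.eval₂_pow, map_zero, sub_zero,
    Polynomial.eval₂_X, abs_pow, pow_succ]
  exact mul_lt_mul_of_pos_left ((hρ δ hδpos).trans_le h2) (pow_pos hρpos m)

/-- The ring of finite elements. -/
def finiteRing : Subring K where
  carrier := {z | ∃ M : ℝ, |z| ≤ ι M}
  mul_mem' := by
    rintro a b ⟨k, hk⟩ ⟨l, hl⟩
    refine ⟨k * l, ?_⟩
    rw [abs_mul, map_mul]
    exact mul_le_mul hk hl (abs_nonneg _) ((abs_nonneg _).trans hk)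
  one_mem' := ⟨1, by simp⟩
  add_mem' := by
    rintro a b ⟨k, hk⟩ ⟨l, hl⟩
    refine ⟨k + l, ?_⟩
    rw [map_add]
    exact (abs_add_le _ _).trans (add_le_add hk hl)
  zero_mem' := ⟨0, by simp⟩
  neg_mem' := by
    rintro a ⟨k, hk⟩
    exact ⟨k, by rwa [abs_neg]⟩

/-- Nonzero infinitesimals are transcendental over the reals. -/
theorem infinitesimal_not_mem_cl (hρ0 : ρ ≠ 0) (hρ : ∀ r : ℝ, 0 < r → |ρ| < ι r) :
    ρ ∉ cl (Set.range ι) := by
  intro h
  have hB : ∀ b ∈ Algebra.adjoin ℤ (Set.range ι), ∃ r : ℝ, b = ι r := by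
    intro b hb
    induction hb using Algebra.adjoin_induction with
    | mem x hx =>
      obtain ⟨r, rfl⟩ := hx
      exact ⟨r, rfl⟩
    | algebraMap z => exact ⟨(z : ℝ), by rw [map_intCast, eq_intCast]⟩
    | add x y _ _ hx hy =>
      obtain ⟨p, rfl⟩ := hx
      obtain ⟨q, rfl⟩ := hy
      exact ⟨p + q, by rw [map_add]⟩
    | mul x y _ _ hx hy =>
      obtain ⟨p, rfl⟩ := hx
      obtain ⟨q, rfl⟩ := hy
      exact ⟨p * q, by rw [map_mul]⟩
  obtain ⟨q, hq0, hq⟩ := IsAlgebraic.exists_nonzero_coeff_and_aeval_eq_zero h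
    (mem_nonZeroDivisors_of_ne_zero hρ0)
  have hρA : ρ ∈ finiteRing ι := ⟨1, (hρ 1 one_pos).le⟩
  have hmem : Polynomial.aeval ρ q.divX ∈ finiteRing ι := by
    rw [Polynomial.aeval_eq_sum_range]
    refine sum_mem fun i _ => ?_
    rw [Algebra.smul_def]
    refine mul_mem ?_ (pow_mem hρA _)
    obtain ⟨r, hr⟩ := hB _ (q.divX.coeff i).2
    refine ⟨|r|, ?_⟩
    change |((q.divX.coeff i : Algebra.adjoin ℤ (Set.range ι)) : K)| ≤ _
    rw [hr, abs_map']
  obtain ⟨M, hM⟩ := hmem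
  have hdecomp : ρ * Polynomial.aeval ρ q.divX + (q.coeff 0 : K) = 0 := by
    rw [← hq]
    conv_rhs => rw [← Polynomial.X_mul_divX_add q]
    rw [map_add, map_mul, Polynomial.aeval_X, Polynomial.aeval_C]
    rfl
  obtain ⟨r, hr⟩ := hB _ (q.coeff 0).2
  have hr0 : r ≠ 0 := by
    rintro rfl
    apply hq0
    ext
    rw [hr]
    simp
  have h1 : ι r = -(ρ * Polynomial.aeval ρ q.divX) := by
    rw [← hr]
    linear_combination hdecomp
  have hrpos : 0 < |r| := abs_pos.mpr hr0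
  have h2 : |ι r| ≤ ι (|r| / 2) := by
    rw [h1, abs_neg, abs_mul]
    have h3 : |ρ| < ι (|r| / (2 * (|M| + 1))) := hρ _ (by positivity)
    calc |ρ| * |Polynomial.aeval ρ q.divX| ≤ ι (|r| / (2 * (|M| + 1))) * ι (|M| + 1) := by
          refine mul_le_mul h3.le (hM.trans (map_le' ι ?_)) (abs_nonneg _)
            (map_nonneg' ι (by positivity))
          linarith [le_abs_self M]
      _ = ι (|r| / 2) := by
          rw [← map_mul]
          congr 1
          field_simp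
  rw [abs_map'] at h2
  have h3 : ι |r| = ι (|r| / 2) + ι (|r| / 2) := by
    rw [← map_add]
    congr 1
    ring
  have h4 : 0 < ι (|r| / 2) := map_pos' ι (by positivity)
  rw [h3] at h2
  linarith

/-- The convex subring attached to `ρ`. -/
def convexRing (ρ : K) (h2 : 2 * |ρ| ≤ 1) : Subring K where
  carrier := {z | ∃ k : ℕ, |z| * |ρ| ^ k ≤ 1}
  mul_mem' := by
    rintro a b ⟨k, hk⟩ ⟨l, hl⟩
    refine ⟨k + l, ?_⟩
    have : |a * b| * |ρ| ^ (k + l) = (|a| * |ρ| ^ k) * (|b| * |ρ| ^ l) := by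
      rw [abs_mul, pow_add]; ring
    rw [this]
    exact mul_le_one₀ hk (by positivity) hl
  one_mem' := ⟨0, by simp⟩
  add_mem' := by
    rintro a b ⟨k, hk⟩ ⟨l, hl⟩
    refine ⟨k + l + 1, ?_⟩
    have h0 := abs_nonneg ρ
    have h1 : |ρ| ≤ 1 := by linarith
    have hk' : |a| * |ρ| ^ (k + l) ≤ 1 := by
      rw [pow_add, ← mul_assoc]
      exact mul_le_one₀ hk (by positivity) (pow_le_one₀ h0 h1)
    have hl' : |b| * |ρ| ^ (k + l) ≤ 1 := by
      rw [add_comm k l, pow_add, ← mul_assoc]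
      exact mul_le_one₀ hl (by positivity) (pow_le_one₀ h0 h1)
    calc |a + b| * |ρ| ^ (k + l + 1) ≤ (|a| + |b|) * |ρ| ^ (k + l + 1) :=
          mul_le_mul_of_nonneg_right (abs_add_le _ _) (by positivity)
      _ = (|a| * |ρ| ^ (k + l) + |b| * |ρ| ^ (k + l)) * |ρ| := by rw [pow_succ]; ring
      _ ≤ 2 * |ρ| := mul_le_mul_of_nonneg_right (by linarith) h0
      _ ≤ 1 := h2
  zero_mem' := ⟨0, by simp⟩
  neg_mem' := by
    rintro a ⟨k, hk⟩
    exact ⟨k, by rwa [abs_neg]⟩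

/-- The main valuation lemma. -/
theorem val_arg (hρ0 : ρ ≠ 0) (hρ : ∀ r : ℝ, 0 < r → |ρ| < ι r) {γ : K}
    (hγ : ∀ k : ℕ, |γ| ≤ |ρ| ^ k) (h : γ ∈ cl (insert ρ (Set.range ι))) : γ = 0 := by
  by_contra hne
  have hhalf : 2 * |ρ| ≤ 1 := by
    have := (hρ (1 / 2) (by norm_num)).le
    have e : ι (1 / 2) = 1 / 2 := by rw [map_div₀, map_one, map_ofNat]
    rw [e] at this
    linarith
  set A := convexRing ρ hhalf with hA
  -- elements of the base ring are polynomials in `ρ`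
  have hB : ∀ b ∈ Algebra.adjoin ℤ (insert ρ (Set.range ι)), ∃ q : Polynomial ℝ,
      b = q.eval₂ ι ρ := by
    intro b hb
    induction hb using Algebra.adjoin_induction with
    | mem x hx =>
      rcases hx with rfl | ⟨r, rfl⟩
      · exact ⟨Polynomial.X, by simp⟩
      · exact ⟨Polynomial.C r, by simp⟩
    | algebraMap z =>
      exact ⟨Polynomial.C (z : ℝ), by
        rw [Polynomial.eval₂_C, map_intCast, eq_intCast]⟩
    | add x y _ _ hx hy =>
      obtain ⟨p, rfl⟩ := hx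
      obtain ⟨q, rfl⟩ := hy
      exact ⟨p + q, by simp⟩
    | mul x y _ _ hx hy =>
      obtain ⟨p, rfl⟩ := hx
      obtain ⟨q, rfl⟩ := hy
      exact ⟨p * q, by rw [Polynomial.eval₂_mul]⟩
  have hBA : ∀ b ∈ Algebra.adjoin ℤ (insert ρ (Set.range ι)), b ∈ A := by
    intro b hb
    obtain ⟨q, rfl⟩ := hB b hb
    obtain ⟨M, hM, hb⟩ := poly_bound ι hρ q
    refine ⟨1, ?_⟩
    have h2 : |ρ| < ι (1 / M) := hρ _ (by positivity)
    rw [pow_one]
    calc |q.eval₂ ι ρ| * |ρ| ≤ ι M * ι (1 / M) :=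
          mul_le_mul hb h2.le (abs_nonneg _) (map_nonneg' ι hM.le)
      _ = 1 := by rw [← map_mul, mul_one_div_cancel hM.ne', map_one]
  obtain ⟨q, hq0, hq⟩ := IsAlgebraic.exists_nonzero_coeff_and_aeval_eq_zero h
    (mem_nonZeroDivisors_of_ne_zero hne)
  have hγA : γ ∈ A := ⟨0, by simpa using hγ 0⟩
  have hmem : Polynomial.aeval γ q.divX ∈ A := by
    rw [Polynomial.aeval_eq_sum_range]
    refine sum_mem fun i _ => ?_
    rw [Algebra.smul_def]
    exact mul_mem (hBA _ (Subtype.mem _)) (pow_mem hγA _)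
  obtain ⟨j, hj⟩ := hmem
  have hdecomp : γ * Polynomial.aeval γ q.divX + (q.coeff 0 : K) = 0 := by
    rw [← hq]
    conv_rhs => rw [← Polynomial.X_mul_divX_add q]
    rw [map_add, map_mul, Polynomial.aeval_X, Polynomial.aeval_C]
    rfl
  obtain ⟨p, hp⟩ := hB _ (q.coeff 0).2
  have hp0 : p ≠ 0 := by
    rintro rfl
    apply hq0
    ext
    rw [hp]
    simp
  obtain ⟨k, hk⟩ := poly_lower ι hρ0 hρ p hp0
  rw [← hp] at hk
  have h1 : (q.coeff 0 : K) = -(γ * Polynomial.aeval γ q.divX) := by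
    linear_combination hdecomp
  rw [h1, abs_neg, abs_mul] at hk
  have h2 : |γ| * |Polynomial.aeval γ q.divX| ≤ |ρ| ^ k := by
    calc |γ| * |Polynomial.aeval γ q.divX| ≤ |ρ| ^ (j + k) * |Polynomial.aeval γ q.divX| :=
          mul_le_mul_of_nonneg_right (hγ _) (abs_nonneg _)
      _ = (|Polynomial.aeval γ q.divX| * |ρ| ^ j) * |ρ| ^ k := by rw [pow_add]; ring
      _ ≤ 1 * |ρ| ^ k := mul_le_mul_of_nonneg_right hj (by positivity)
      _ = |ρ| ^ k := one_mul _
  exact absurd hk (not_lt.mpr h2)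

end Val

end MP1c24b6
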