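import Pool.Agent.Lib.MP_1c24b6_ag.Ultra
import Pool.Agent.Lib.MP_1c24b6_ag.Val

/-!
Flatness and transcendence lemmas for functions of two variables whose germs are algebraic.
-/

namespace MP1c24b6

open Filter Topology Asymptotics

section

variable (φ : Ultrafilter (ℝ × ℝ))

/-- The real constants in the germ field. -/
def reals : Set (KK φ) := Set.range (cstHom φ)

/-- The coordinate germs. -/
def gs : KK φ := gm φ Prod.fst

/-- The coordinate germs. -/
def gt : KK φ := gm φ Prod.snd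

/-- The two coordinate germs are algebraically dependent over the reals. -/
def Dep : Prop := gs φ ∈ cl (reals φ) ∨ gt φ ∈ cl (insert (gs φ) (reals φ))

end

/-- All germs of `F` are algebraic over the constants in `C` and the coordinate germs. -/
def AlgFun (C : Set ℝ) (F : ℝ × ℝ → ℝ) : Prop :=
  ∀ φ : Ultrafilter (ℝ × ℝ), gm φ F ∈ cl (cstHom φ '' C ∪ {gs φ, gt φ})

lemma AlgFun.mono {C D : Set ℝ} {F : ℝ × ℝ → ℝ} (h : AlgFun C F) (hCD : C ⊆ D) : AlgFun D F :=
  fun φ => cl_mono (Set.union_subset_union_left _ (Set.image_mono hCD)) (h φ)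

lemma AlgFun.neg {C : Set ℝ} {F : ℝ × ℝ → ℝ} (h : AlgFun C F) : AlgFun C (fun p => -F p) :=
  fun φ => neg_mem_cl (h φ)

lemma algFun_of_semialg {f : (Fin 2 → ℝ) → ℝ} (hf : SemialgFunOn Set.univ f) :
    ∃ C : Set ℝ, C.Countable ∧ AlgFun C (fun p => f ![p.1, p.2]) := by
  obtain ⟨C, hC, h⟩ := semialg_germ hf
  refine ⟨C, hC, fun φ => ?_⟩
  refine cl_mono ?_ (h (ℝ × ℝ) φ (fun p => ![p.1, p.2]))
  refine Set.union_subset_union_right _ ?_
  rintro _ ⟨i, rfl⟩
  fin_cases i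
  · left; rfl
  · right; rfl

section

variable (φ : Ultrafilter (ℝ × ℝ))

lemma cst_mem_cl_iff {C : Set ℝ} {r : ℝ} (h : cstHom φ r ∈ cl (cstHom φ '' C)) : r ∈ cl C := by
  have hinj : Function.Injective (cstHom φ) := RingHom.injective _
  have hmap : ∀ x : Algebra.adjoin ℤ C, cstHom φ (x : ℝ) ∈ Algebra.adjoin ℤ (cstHom φ '' C) := by
    intro x
    have h1 : (cstHom φ).toIntAlgHom '' C = cstHom φ '' C := rfl
    have h2 := AlgHom.map_adjoin (cstHom φ).toIntAlgHom C
    rw [h1] at h2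
    rw [← h2]
    exact ⟨x, x.2, rfl⟩
  let f : Algebra.adjoin ℤ C →+* Algebra.adjoin ℤ (cstHom φ '' C) :=
    ((cstHom φ).comp (Algebra.adjoin ℤ C).val.toRingHom).codRestrict
      (Algebra.adjoin ℤ (cstHom φ '' C)) hmap
  refine IsAlgebraic.of_ringHom_of_comp_eq (S := Algebra.adjoin ℤ (cstHom φ '' C)) (B := KK φ)
    f (cstHom φ) h ?_ hinj ?_
  · rintro ⟨y, hy⟩
    have h2 := AlgHom.map_adjoin (cstHom φ).toIntAlgHom C
    have h1 : (cstHom φ).toIntAlgHom '' C = cstHom φ '' C := rfl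
    rw [h1] at h2
    rw [← h2] at hy
    obtain ⟨x, hx, rfl⟩ := hy
    exact ⟨⟨x, hx⟩, rfl⟩
  · rfl

/-- If `F = r G` along `φ` with `G ≠ 0` and `r` is transcendental over the constants of `F` and `G`
then the coordinates are dependent along `φ`. -/
theorem dep_of_ratio {C : Set ℝ} {F G : ℝ × ℝ → ℝ} (hF : AlgFun C F) (hG : AlgFun C G) {r : ℝ}
    (hr : r ∉ cl C) (h : ∀ᶠ q in (φ : Filter (ℝ × ℝ)), F q = r * G q)
    (hne : ∀ᶠ q in (φ : Filter (ℝ × ℝ)), G q ≠ 0) : Dep φ := by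
  by_contra hdep
  rw [Dep, not_or] at hdep
  obtain ⟨hs, ht⟩ := hdep
  have hG0 : gm φ G ≠ 0 := by
    rw [← gm_zero, Ne, gm_eq_iff, ← Ultrafilter.eventually_not]
    exact hne
  have e : gm φ F = cstHom φ r * gm φ G := by
    rw [cst_eq, ← gm_mul, gm_eq_iff]
    exact h
  have hr1 : cstHom φ r ∈ cl (cstHom φ '' C ∪ {gs φ, gt φ}) := by
    have : cstHom φ r = gm φ F / gm φ G := by
      rw [e, mul_div_cancel_right₀ _ hG0]
    rw [this]
    exact div_mem_cl (hF φ) (hG φ)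
  have hr2 : cstHom φ r ∉ cl (cstHom φ '' C) := fun h => hr (cst_mem_cl_iff φ h)
  have hCR : cstHom φ '' C ⊆ reals φ := Set.image_subset_range _ _
  have hrR : cstHom φ r ∈ reals φ := ⟨r, rfl⟩
  have hset : cstHom φ '' C ∪ {gs φ, gt φ} = insert (gt φ) (insert (gs φ) (cstHom φ '' C)) := by
    ext x
    simp only [Set.mem_union, Set.mem_insert_iff, Set.mem_singleton_iff]
    tauto
  rw [hset] at hr1
  by_cases h1 : cstHom φ r ∈ cl (insert (gs φ) (cstHom φ '' C))
  · have h2 := cl_exchange h1 hr2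
    exact hs (cl_mono (Set.insert_subset hrR hCR) h2)
  · have h2 := cl_exchange hr1 h1
    refine ht (cl_mono ?_ h2)
    refine Set.insert_subset (Set.mem_insert_of_mem _ hrR) ?_
    exact Set.insert_subset_insert hCR

lemma dep_of_slice {t₀ : ℝ} (h : ∀ᶠ q in (φ : Filter (ℝ × ℝ)), q.2 = t₀) : Dep φ := by
  right
  have : gt φ = cstHom φ t₀ := by
    rw [cst_eq, gt, gm_eq_iff]
    exact h
  rw [this]
  exact subset_cl _ (Set.mem_insert_of_mem _ ⟨t₀, rfl⟩)

lemma gm_le_iff {f g : ℝ × ℝ → ℝ} : gm φ f ≤ gm φ g ↔ ∀ᶠ a in (φ : Filter (ℝ × ℝ)), f a ≤ g a :=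
  Germ.coe_le

lemma gm_lt_iff {f g : ℝ × ℝ → ℝ} : gm φ f < gm φ g ↔ ∀ᶠ a in (φ : Filter (ℝ × ℝ)), f a < g a :=
  Germ.coe_lt

lemma gm_abs (f : ℝ × ℝ → ℝ) : |gm φ f| = gm φ (fun a => |f a|) := by
  rw [Germ.abs_def]
  rfl

lemma gm_pow (f : ℝ × ℝ → ℝ) (k : ℕ) : gm φ (fun a => f a ^ k) = gm φ f ^ k := rfl

/-- A function with algebraic germs, not vanishing along `φ`, cannot be flat along `φ` if the
coordinates are dependent along `φ`. -/
theorem not_flat {C : Set ℝ} {F : ℝ × ℝ → ℝ} (hF : AlgFun C F) {p₀ : ℝ × ℝ}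
    (hφ : (φ : Filter (ℝ × ℝ)) ≤ 𝓝 p₀) (hne : ∀ᶠ q in (φ : Filter (ℝ × ℝ)), F q ≠ 0)
    (hflat : ∀ K : ℕ, F =O[φ] (fun q => ‖q - p₀‖ ^ K)) (hdep : Dep φ) : False := by
  have hF0 : gm φ F ≠ 0 := by
    rw [← gm_zero, Ne, gm_eq_iff, ← Ultrafilter.eventually_not]
    exact hne
  -- the differences
  set s' : KK φ := gm φ (fun q => q.1 - p₀.1) with hs'
  set t' : KK φ := gm φ (fun q => q.2 - p₀.2) with ht'
  have es : s' = gs φ - cstHom φ p₀.1 := rfl
  have et : t' = gt φ - cstHom φ p₀.2 := rfl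
  -- the general argument for a dominating coordinate
  have main : ∀ (i : ℝ × ℝ → ℝ), (∀ᶠ q in (φ : Filter (ℝ × ℝ)), ‖q - p₀‖ = |i q|) →
      Tendsto i (𝓝 p₀) (𝓝 0) → (gm φ i ∉ cl (reals φ) →
        gm φ F ∈ cl (insert (gm φ i) (reals φ))) → False := by
    intro i hi hi0 hcl
    have hρ0 : gm φ i ≠ 0 := by
      intro h0
      rw [← gm_zero, gm_eq_iff] at h0
      obtain ⟨c, hc⟩ := (hflat 1).bound
      obtain ⟨q, h1, h2, h3, h4⟩ := ((h0.and (hc.and (hne.and hi))).exists)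
      rw [h4, h1, abs_zero, pow_one, norm_zero, mul_zero] at h2
      exact h3 (norm_le_zero_iff.mp h2)
    have hρ : ∀ r : ℝ, 0 < r → |gm φ i| < cstHom φ r := by
      intro r hr
      rw [gm_abs, cst_eq, gm_lt_iff]
      have := (hi0.mono_left hφ).eventually (Metric.ball_mem_nhds 0 hr)
      filter_upwards [this] with q hq
      simpa [Real.norm_eq_abs] using hq
    apply hF0
    refine val_arg (cstHom φ) hρ0 hρ ?_ (hcl (infinitesimal_not_mem_cl (cstHom φ) hρ0 hρ))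
    intro k
    rw [gm_abs, gm_abs, ← gm_pow, gm_le_iff]
    obtain ⟨c, hc⟩ := (hflat (k + 1)).bound
    have hsmall : ∀ᶠ q in (φ : Filter (ℝ × ℝ)), |i q| < 1 / (|c| + 1) := by
      have := (hi0.mono_left hφ).eventually
        (Metric.ball_mem_nhds 0 (by positivity : 0 < 1 / (|c| + 1)))
      filter_upwards [this] with q hq
      simpa [Real.norm_eq_abs] using hq
    filter_upwards [hc, hi, hsmall] with q h1 h2 h3
    rw [h2, Real.norm_eq_abs, Real.norm_eq_abs, abs_pow, abs_abs, pow_succ] at h1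
    have h4 : 0 ≤ |i q| ^ k := by positivity
    have h5 : c * |i q| ≤ 1 := by
      have h6 : |i q| * (|c| + 1) < 1 := by
        rwa [lt_div_iff₀ (by positivity)] at h3
      have h7 : c * |i q| ≤ |c| * |i q| := mul_le_mul_of_nonneg_right (le_abs_self c) (abs_nonneg _)
      nlinarith [abs_nonneg (i q)]
    calc |F q| ≤ c * (|i q| ^ k * |i q|) := h1
      _ = |i q| ^ k * (c * |i q|) := by ring
      _ ≤ |i q| ^ k * 1 := mul_le_mul_of_nonneg_left h5 h4
      _ = |i q| ^ k := mul_one _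
  have hbase : gm φ F ∈ cl (insert (gt φ) (insert (gs φ) (reals φ))) := by
    refine cl_mono ?_ (hF φ)
    rintro x (⟨r, _, rfl⟩ | rfl | rfl)
    · exact Or.inr (Or.inr ⟨r, rfl⟩)
    · exact Or.inr (Or.inl rfl)
    · exact Or.inl rfl
  have hcst : ∀ (y : KK φ) (r : ℝ), cstHom φ r ∈ cl (insert y (reals φ)) := fun y r =>
    subset_cl _ (Set.mem_insert_of_mem _ ⟨r, rfl⟩)
  -- algebraic over either coordinate, unless that coordinate is algebraic over the reals
  have hcases : ∀ᶠ q in (φ : Filter (ℝ × ℝ)), (‖q - p₀‖ = |q.1 - p₀.1| ∨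
      ‖q - p₀‖ = |q.2 - p₀.2|) := by
    refine Eventually.of_forall fun q => ?_
    rw [Prod.norm_def, Prod.fst_sub, Prod.snd_sub, Real.norm_eq_abs, Real.norm_eq_abs]
    exact max_choice _ _
  rw [Ultrafilter.eventually_or] at hcases
  have hlim1 : Tendsto (fun q : ℝ × ℝ => q.1 - p₀.1) (𝓝 p₀) (𝓝 0) := by
    have : Continuous fun q : ℝ × ℝ => q.1 - p₀.1 := by fun_prop
    simpa using this.tendsto p₀
  have hlim2 : Tendsto (fun q : ℝ × ℝ => q.2 - p₀.2) (𝓝 p₀) (𝓝 0) := by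
    have : Continuous fun q : ℝ × ℝ => q.2 - p₀.2 := by fun_prop
    simpa using this.tendsto p₀
  have hgs : gs φ ∈ cl (insert s' (reals φ)) := by
    have : gs φ = s' + cstHom φ p₀.1 := by rw [es]; ring
    rw [this]
    exact add_mem_cl (subset_cl _ (Set.mem_insert _ _)) (hcst _ _)
  have hgt : gt φ ∈ cl (insert t' (reals φ)) := by
    have : gt φ = t' + cstHom φ p₀.2 := by rw [et]; ring
    rw [this]
    exact add_mem_cl (subset_cl _ (Set.mem_insert _ _)) (hcst _ _)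
  have hRsub : ∀ y : KK φ, reals φ ⊆ cl (insert y (reals φ)) := fun y =>
    (Set.subset_insert _ _).trans (subset_cl _)
  rcases hcases with hc | hc
  · -- first coordinate dominates
    refine main (fun q => q.1 - p₀.1) hc hlim1 fun htr => ?_
    have hgs0 : gs φ ∉ cl (reals φ) := fun h => htr (sub_mem_cl h (subset_cl _ ⟨_, rfl⟩))
    have hgt' : gt φ ∈ cl (insert (gs φ) (reals φ)) := hdep.resolve_left hgs0
    have h1 : insert (gs φ) (reals φ) ⊆ cl (insert s' (reals φ)) :=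
      Set.insert_subset hgs (hRsub _)
    exact cl_subset (Set.insert_subset (cl_subset h1 hgt') h1) hbase
  · refine main (fun q => q.2 - p₀.2) hc hlim2 fun htr => ?_
    have hgt0 : gt φ ∉ cl (reals φ) := fun h => htr (sub_mem_cl h (subset_cl _ ⟨_, rfl⟩))
    have h1 : insert (gt φ) (reals φ) ⊆ cl (insert t' (reals φ)) :=
      Set.insert_subset hgt (hRsub _)
    have hgs' : gs φ ∈ cl (insert (gt φ) (reals φ)) := by
      rcases hdep with h | h
      · exact cl_mono (Set.subset_insert _ _) h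
      · exact cl_exchange h hgt0
    exact cl_subset (Set.insert_subset hgt (Set.insert_subset (cl_subset h1 hgs')
      (hRsub _))) hbase

end

end MP1c24b6
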