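import Pool.Agent.Lib.MP_1c24b6_ag.Defs

/-!
Elementary facts on semialgebraic sets and on the graph `T4` of the `l⁴` norm.
-/

namespace MP1c24b6

open MvPolynomial

variable {n : ℕ}

lemma isSemialg_univ : IsSemialg (Set.univ : Set (Fin n → ℝ)) := by
  have h := IsSemialg.pos (1 : MvPolynomial (Fin n) ℝ)
  have e : {x : Fin n → ℝ | 0 < eval x (1 : MvPolynomial (Fin n) ℝ)} = Set.univ := by
    ext x
    simp
  rwa [e] at h

lemma isSemialg_nonneg (P : MvPolynomial (Fin n) ℝ) : IsSemialg {x | 0 ≤ eval x P} := by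
  have h := (IsSemialg.pos (-P)).compl
  have e : {x : Fin n → ℝ | 0 < eval x (-P)}ᶜ = {x | 0 ≤ eval x P} := by
    ext x
    change ¬ (0 < eval x (-P)) ↔ 0 ≤ eval x P
    rw [map_neg, not_lt, neg_nonpos]
  rwa [e] at h

lemma isSemialg_zero (P : MvPolynomial (Fin n) ℝ) : IsSemialg {x | eval x P = 0} := by
  have h := (isSemialg_nonneg P).inter (isSemialg_nonneg (-P))
  have e : {x : Fin n → ℝ | 0 ≤ eval x P} ∩ {x | 0 ≤ eval x (-P)} = {x | eval x P = 0} := by
    ext x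
    change (0 ≤ eval x P ∧ 0 ≤ eval x (-P)) ↔ eval x P = 0
    rw [map_neg]
    constructor
    · rintro ⟨h1, h2⟩
      linarith
    · intro h
      constructor <;> linarith
  rwa [e] at h

lemma isSemialg_iInter {ι : Type*} (s : Finset ι) (A : ι → Set (Fin n → ℝ))
    (h : ∀ i ∈ s, IsSemialg (A i)) : IsSemialg (⋂ i ∈ s, A i) := by
  classical
  induction s using Finset.induction_on with
  | empty => simpa using isSemialg_univ
  | insert a s ha ih =>
    rw [Finset.set_biInter_insert]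
    exact (h a (Finset.mem_insert_self a s)).inter
      (ih fun i hi => h i (Finset.mem_insert_of_mem hi))

/-- Open boxes are semialgebraic. -/
lemma isSemialg_box (x δ : Fin n → ℝ) : IsSemialg {p : Fin n → ℝ | ∀ i, |p i - x i| < δ i} := by
  have h := isSemialg_iInter (n := n) (Finset.univ : Finset (Fin n))
    (fun i => {p | 0 < eval p (C (δ i) - (X i - C (x i)))} ∩
      {p | 0 < eval p (C (δ i) + (X i - C (x i)))})
    (fun i _ => (IsSemialg.pos _).inter (IsSemialg.pos _))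
  have e : (⋂ i ∈ (Finset.univ : Finset (Fin n)),
      ({p : Fin n → ℝ | 0 < eval p (C (δ i) - (X i - C (x i)))} ∩
      {p | 0 < eval p (C (δ i) + (X i - C (x i)))})) = {p | ∀ i, |p i - x i| < δ i} := by
    ext p
    simp only [Finset.mem_univ, Set.iInter_true, Set.mem_iInter, Set.mem_inter_iff]
    refine forall_congr' fun i => ?_
    change (0 < eval p (C (δ i) - (X i - C (x i))) ∧ 0 < eval p (C (δ i) + (X i - C (x i)))) ↔ _
    rw [map_sub, map_add, map_sub, eval_C, eval_X, eval_C, abs_lt]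
    constructor
    · rintro ⟨h1, h2⟩
      constructor <;> linarith
    · rintro ⟨h1, h2⟩
      constructor <;> linarith
  rwa [e] at h

/-- The `l⁴` norm. -/
noncomputable def N4 (u v : ℝ) : ℝ := Real.sqrt (Real.sqrt (u ^ 4 + v ^ 4))

lemma N4_nonneg (u v : ℝ) : 0 ≤ N4 u v := Real.sqrt_nonneg _

lemma N4_pow (u v : ℝ) : N4 u v ^ 4 = u ^ 4 + v ^ 4 := by
  have h1 : 0 ≤ u ^ 4 + v ^ 4 := by positivity
  rw [N4, show (4 : ℕ) = 2 * 2 from rfl, pow_mul, Real.sq_sqrt (Real.sqrt_nonneg _),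
    Real.sq_sqrt h1]

lemma eq_N4 {u v w : ℝ} (hw : 0 ≤ w) (h : w ^ 4 = u ^ 4 + v ^ 4) : w = N4 u v := by
  rw [← N4_pow] at h
  exact (pow_left_inj₀ hw (N4_nonneg u v) (by norm_num)).mp h

lemma N4_pos {u v : ℝ} (h : u ≠ 0 ∨ v ≠ 0) : 0 < N4 u v := by
  have h1 : 0 < u ^ 4 + v ^ 4 := by
    rcases h with h | h
    · have : 0 < u ^ 4 := by positivity
      have : 0 ≤ v ^ 4 := by positivity
      linarith
    · have : 0 < v ^ 4 := by positivity
      have : 0 ≤ u ^ 4 := by positivity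
      linarith
  exact Real.sqrt_pos.mpr (Real.sqrt_pos.mpr h1)

lemma N4_continuous : Continuous fun p : ℝ × ℝ => N4 p.1 p.2 := by
  unfold N4
  fun_prop

lemma abs_le_N4_left (u v : ℝ) : |u| ≤ N4 u v := by
  refine (pow_le_pow_iff_left₀ (abs_nonneg u) (N4_nonneg u v) (n := 4) (by norm_num)).mp ?_
  rw [N4_pow]
  have h1 : |u| ^ 4 = u ^ 4 := by
    rw [show (4 : ℕ) = 2 * 2 from rfl, pow_mul, pow_mul, sq_abs]
  rw [h1]
  have : 0 ≤ v ^ 4 := by positivity
  linarith

lemma abs_le_N4_right (u v : ℝ) : |v| ≤ N4 u v := by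
  have : N4 u v = N4 v u := by rw [N4, N4, add_comm]
  rw [this]
  exact abs_le_N4_left v u

lemma isSemialg_T4 : IsSemialg T4 := by
  have h := (isSemialg_zero (n := 3) (X 2 ^ 4 - (X 0 ^ 4 + X 1 ^ 4))).inter
    (isSemialg_nonneg (X 2))
  have e : {x : Fin 3 → ℝ | eval x (X 2 ^ 4 - (X 0 ^ 4 + X 1 ^ 4)) = 0} ∩
      {x | 0 ≤ eval x (X 2)} = T4 := by
    ext x
    change (eval x (X 2 ^ 4 - (X 0 ^ 4 + X 1 ^ 4)) = 0 ∧ 0 ≤ eval x (X 2)) ↔
      (x 2 ^ 4 = x 0 ^ 4 + x 1 ^ 4 ∧ 0 ≤ x 2)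
    simp only [map_sub, map_add, map_pow, eval_X, sub_eq_zero]
  rwa [e] at h

/-- The test map. -/
noncomputable def f4 (x : Fin 2 → ℝ) : Fin 3 → ℝ := ![x 0, x 1, N4 (x 0) (x 1)]

lemma f4_mapsTo : Set.MapsTo f4 Set.univ T4 := by
  intro x _
  exact ⟨N4_pow _ _, N4_nonneg _ _⟩

lemma f4_continuous : Continuous f4 := by
  refine continuous_pi fun i => ?_
  fin_cases i
  · exact continuous_apply 0
  · exact continuous_apply 1
  · exact N4_continuous.comp (f := fun x : Fin 2 → ℝ => (x 0, x 1)) (by fun_prop)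

lemma f4_semialg : SemialgMapOn Set.univ f4 := by
  have h := ((isSemialg_zero (n := 5) (X 2 - X 0)).inter
    (isSemialg_zero (n := 5) (X 3 - X 1))).inter
    ((isSemialg_zero (n := 5) (X 4 ^ 4 - (X 0 ^ 4 + X 1 ^ 4))).inter
    (isSemialg_nonneg (n := 5) (X 4)))
  unfold SemialgMapOn
  convert! h using 1
  ext z
  constructor
  · rintro ⟨x, _, rfl⟩
    refine ⟨⟨?_, ?_⟩, ?_, ?_⟩
    · change eval (Fin.append x (f4 x)) (X 2 - X 0) = 0
      rw [map_sub, eval_X, eval_X]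
      change x 0 - x 0 = 0
      ring
    · change eval (Fin.append x (f4 x)) (X 3 - X 1) = 0
      rw [map_sub, eval_X, eval_X]
      change x 1 - x 1 = 0
      ring
    · change eval (Fin.append x (f4 x)) (X 4 ^ 4 - (X 0 ^ 4 + X 1 ^ 4)) = 0
      rw [map_sub, map_add, map_pow, map_pow, map_pow, eval_X, eval_X, eval_X]
      change N4 (x 0) (x 1) ^ 4 - (x 0 ^ 4 + x 1 ^ 4) = 0
      rw [N4_pow]
      ring
    · change 0 ≤ eval (Fin.append x (f4 x)) (X 4)
      rw [eval_X]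
      exact N4_nonneg (x 0) (x 1)
  · rintro ⟨⟨h1, h2⟩, h3, h4⟩
    change eval z (X 2 - X 0) = 0 at h1
    change eval z (X 3 - X 1) = 0 at h2
    change eval z (X 4 ^ 4 - (X 0 ^ 4 + X 1 ^ 4)) = 0 at h3
    change 0 ≤ eval z (X 4) at h4
    rw [map_sub, eval_X, eval_X] at h1 h2
    rw [map_sub, map_add, map_pow, map_pow, map_pow, eval_X, eval_X, eval_X] at h3
    rw [eval_X] at h4
    refine ⟨![z 0, z 1], Set.mem_univ _, ?_⟩
    have h5 : z 4 = N4 (z 0) (z 1) := eq_N4 h4 (by linarith)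
    funext i
    fin_cases i
    · rfl
    · rfl
    · change z 2 = z 0
      linarith
    · change z 3 = z 1
      linarith
    · exact h5

lemma const_semialg (m : ℕ) (r : ℝ) :
    SemialgFunOn (Set.univ : Set (Fin m → ℝ)) (fun _ => r) := by
  have h := isSemialg_zero (n := m + 1) (X (Fin.last m) - C r)
  unfold SemialgFunOn
  convert! h using 1
  ext z
  constructor
  · rintro ⟨x, _, rfl⟩
    change eval _ (X (Fin.last m) - C r) = 0
    rw [map_sub, eval_X, eval_C]
    simp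
  · intro hz
    change eval z (X (Fin.last m) - C r) = 0 at hz
    rw [map_sub, eval_X, eval_C, sub_eq_zero] at hz
    refine ⟨Fin.init z, Set.mem_univ _, ?_⟩
    rw [← hz, Fin.snoc_init_self]

end MP1c24b6
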