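import Mathlib
import Pool.Agent.Lib.MP_1c24b6_ag.Semi

section

/-!
Fermat quartic descent in a local unique factorisation domain over `ℂ` whose units are fourth
powers, applied to `ℂ⟦X⟧⟦X⟧`.
-/

namespace MP1c24b6

open PowerSeries

section Descent

variable {R : Type*} [CommRing R] [IsDomain R] [UniqueFactorizationMonoid R] [IsLocalRing R]
  [Algebra ℂ R]

lemma unit_const {z : ℂ} (hz : z ≠ 0) : IsUnit (algebraMap ℂ R z) :=
  (isUnit_iff_ne_zero.mpr hz).map (algebraMap ℂ R)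

lemma relPrime_factors {b c : R} (h : IsRelPrime b c) {z w : ℂ} (hzw : z ≠ w) :
    IsRelPrime (c - algebraMap ℂ R z * b) (c - algebraMap ℂ R w * b) := by
  intro d hd1 hd2
  have h1 : d ∣ algebraMap ℂ R (w - z) * b := by
    have := dvd_sub hd1 hd2
    have e : c - algebraMap ℂ R z * b - (c - algebraMap ℂ R w * b) =
        algebraMap ℂ R (w - z) * b := by rw [map_sub]; ring
    rwa [e] at this
  have h2 : d ∣ algebraMap ℂ R (w - z) * c := by
    have := dvd_sub (hd1.mul_left (algebraMap ℂ R w)) (hd2.mul_left (algebraMap ℂ R z))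
    have e : algebraMap ℂ R w * (c - algebraMap ℂ R z * b) -
        algebraMap ℂ R z * (c - algebraMap ℂ R w * b) = algebraMap ℂ R (w - z) * c := by
      rw [map_sub]; ring
    rwa [e] at this
  have hu : IsUnit (algebraMap ℂ R (w - z)) := unit_const (sub_ne_zero.mpr hzw.symm)
  exact h ((hu.dvd_mul_left).mp h1) ((hu.dvd_mul_left).mp h2)

omit [IsDomain R] [IsLocalRing R] [Algebra ℂ R] in
lemma fourth_power_of_mul (hroot : ∀ u : R, IsUnit u → ∃ v, v ^ 4 = u) {x y a : R}
    (hxy : IsRelPrime x y) (h : x * y = a ^ 4) : ∃ p, x = p ^ 4 := by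
  classical
  let _ := UniqueFactorizationMonoid.toGCDMonoid R
  have hg : IsUnit (gcd x y) := gcd_isUnit_iff_isRelPrime.mpr hxy
  obtain ⟨d, u, hu⟩ := exists_associated_pow_of_mul_eq_pow hg h
  obtain ⟨v, hv⟩ := hroot u u.isUnit
  exact ⟨d * v, by rw [mul_pow, hv, hu]⟩

lemma fourth_power_eq {a w : R} (h : a ^ 4 = w ^ 4) :
    ∃ ζ : ℂ, ζ ≠ 0 ∧ a = algebraMap ℂ R ζ * w := by
  have hI : algebraMap ℂ R Complex.I * algebraMap ℂ R Complex.I = -1 := by
    rw [← map_mul, Complex.I_mul_I, map_neg, map_one]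
  have h1 : (a - w) * ((a + w) * ((a - algebraMap ℂ R Complex.I * w) *
      (a + algebraMap ℂ R Complex.I * w))) = 0 := by
    have e : (a - w) * ((a + w) * ((a - algebraMap ℂ R Complex.I * w) *
      (a + algebraMap ℂ R Complex.I * w))) = (a ^ 2 - w ^ 2) *
        (a ^ 2 - (algebraMap ℂ R Complex.I * algebraMap ℂ R Complex.I) * w ^ 2) := by ring
    rw [e, hI]
    have : (a ^ 2 - w ^ 2) * (a ^ 2 - -1 * w ^ 2) = a ^ 4 - w ^ 4 := by ring
    rw [this, h, sub_self]
  rcases mul_eq_zero.mp h1 with h2 | h2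
  · exact ⟨1, one_ne_zero, by rw [map_one, one_mul]; exact sub_eq_zero.mp h2⟩
  rcases mul_eq_zero.mp h2 with h3 | h3
  · exact ⟨-1, by norm_num, by rw [map_neg, map_one]; linear_combination h3⟩
  rcases mul_eq_zero.mp h3 with h4 | h4
  · exact ⟨Complex.I, Complex.I_ne_zero, sub_eq_zero.mp h4⟩
  · exact ⟨-Complex.I, neg_ne_zero.mpr Complex.I_ne_zero, by
      rw [map_neg]; linear_combination h4⟩

/-- Infinite descent for the Fermat quartic. -/
theorem descent (hroot : ∀ u : R, IsUnit u → ∃ v, v ^ 4 = u) :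
    ∀ a : R, a ≠ 0 → ∀ b c : R, a ^ 4 + b ^ 4 = c ^ 4 → IsRelPrime b c → ¬ IsUnit b →
      ¬ IsUnit c → False := by
  intro a
  refine (wellFounded_dvdNotUnit (α := R)).induction
    (C := fun a => a ≠ 0 → ∀ b c : R, a ^ 4 + b ^ 4 = c ^ 4 → IsRelPrime b c → ¬ IsUnit b →
      ¬ IsUnit c → False) a ?_
  intro a ih ha b c habc hbc hb hc
  set κ := algebraMap ℂ R with hκ
  have hI : κ Complex.I * κ Complex.I = -1 := by
    rw [← map_mul, Complex.I_mul_I, map_neg, map_one]
  let f : ℂ → R := fun z => c - κ z * b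
  have hprod : f 1 * (f (-1) * (f Complex.I * f (-Complex.I))) = a ^ 4 := by
    have e : f 1 * (f (-1) * (f Complex.I * f (-Complex.I))) =
        (c ^ 2 - b ^ 2) * (c ^ 2 - (κ Complex.I * κ Complex.I) * b ^ 2) := by
      simp only [f, map_neg, map_one]
      ring
    rw [e, hI]
    linear_combination -habc
  have hcop : ∀ z w : ℂ, z ≠ w → IsRelPrime (f z) (f w) := fun z w h => relPrime_factors hbc h
  have hne1 : (1 : ℂ) ≠ -1 := by norm_num
  have hI1 : (1 : ℂ) ≠ Complex.I := by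
    intro h
    have := congrArg Complex.im h
    simp at this
  have hI2 : (1 : ℂ) ≠ -Complex.I := by
    intro h
    have := congrArg Complex.im h
    simp at this
  have hI3 : (-1 : ℂ) ≠ Complex.I := by
    intro h
    have := congrArg Complex.im h
    simp at this
  have hI4 : (-1 : ℂ) ≠ -Complex.I := by
    intro h
    have := congrArg Complex.im h
    simp at this
  have hI5 : Complex.I ≠ -Complex.I := by
    intro h
    have := congrArg Complex.im h
    simp at this
    norm_num at this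
  obtain ⟨p0, hp0⟩ : ∃ p, f 1 = p ^ 4 :=
    fourth_power_of_mul hroot ((hcop _ _ hne1).mul_right
      ((hcop _ _ hI1).mul_right (hcop _ _ hI2))) hprod
  obtain ⟨p1, hp1⟩ : ∃ p, f (-1) = p ^ 4 := by
    refine fourth_power_of_mul hroot (y := f 1 * (f Complex.I * f (-Complex.I))) (a := a)
      ((hcop _ _ hne1.symm).mul_right ((hcop _ _ hI3).mul_right (hcop _ _ hI4))) ?_
    rw [← hprod]; ring
  obtain ⟨p2, hp2⟩ : ∃ p, f Complex.I = p ^ 4 := by
    refine fourth_power_of_mul hroot (y := f 1 * (f (-1) * f (-Complex.I))) (a := a)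
      ((hcop _ _ hI1.symm).mul_right ((hcop _ _ hI3.symm).mul_right (hcop _ _ hI5))) ?_
    rw [← hprod]; ring
  obtain ⟨p3, hp3⟩ : ∃ p, f (-Complex.I) = p ^ 4 := by
    refine fourth_power_of_mul hroot (y := f 1 * (f (-1) * f Complex.I)) (a := a)
      ((hcop _ _ hI2.symm).mul_right ((hcop _ _ hI4.symm).mul_right (hcop _ _ hI5.symm))) ?_
    rw [← hprod]; ring
  -- nonunits
  have hfnu : ∀ z, ¬ IsUnit (f z) := by
    intro z hu
    have hbm : b ∈ IsLocalRing.maximalIdeal R := (IsLocalRing.mem_maximalIdeal b).mpr hb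
    have hcm : c ∈ IsLocalRing.maximalIdeal R := (IsLocalRing.mem_maximalIdeal c).mpr hc
    have : f z ∈ IsLocalRing.maximalIdeal R :=
      Ideal.sub_mem _ hcm (Ideal.mul_mem_left _ _ hbm)
    exact (IsLocalRing.mem_maximalIdeal _).mp this hu
  have hp1nu : ¬ IsUnit p1 := fun h => hfnu (-1) (by rw [hp1]; exact h.pow 4)
  have hp2nu : ¬ IsUnit p2 := fun h => hfnu Complex.I (by rw [hp2]; exact h.pow 4)
  -- a = ζ p0 p1 p2 p3
  obtain ⟨ζ, hζ, haζ⟩ := fourth_power_eq (a := a) (w := p0 * (p1 * (p2 * p3))) (by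
    rw [← hprod, hp0, hp1, hp2, hp3]; ring)
  obtain ⟨α, hα⟩ := IsAlgClosed.exists_pow_nat_eq ((1 + Complex.I) / 2) (n := 4) (by norm_num)
  obtain ⟨β, hβ⟩ := IsAlgClosed.exists_pow_nat_eq ((1 - Complex.I) / 2) (n := 4) (by norm_num)
  have hα0 : α ≠ 0 := by
    rintro rfl
    have := congrArg Complex.re hα
    norm_num at this
  have hβ0 : β ≠ 0 := by
    rintro rfl
    have := congrArg Complex.re hβ
    norm_num at this
  have hp0ne : p0 ≠ 0 := by
    rintro rfl
    rw [hp0] at hprod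
    apply ha
    have : a ^ 4 = 0 := by rw [← hprod]; ring
    exact pow_eq_zero_iff (by norm_num) |>.mp this
  have hκα : κ α ≠ 0 := (unit_const hα0).ne_zero
  refine ih (κ α * p0) ?_ (mul_ne_zero hκα hp0ne) (κ β * p1) p2 ?_ ?_ ?_ hp2nu
  · refine ⟨mul_ne_zero hκα hp0ne, κ (ζ * α⁻¹) * (p1 * (p2 * p3)), ?_, ?_⟩
    · intro hu
      exact hp1nu (isUnit_of_mul_isUnit_left (isUnit_of_mul_isUnit_right hu))
    · rw [haζ]
      have : κ ζ = κ α * κ (ζ * α⁻¹) := by
        rw [← map_mul]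
        congr 1
        field_simp
      rw [← hκ, this]
      ring
  · have e1 : κ α ^ 4 = κ ((1 + Complex.I) / 2) := by rw [← map_pow, hα]
    have e2 : κ β ^ 4 = κ ((1 - Complex.I) / 2) := by rw [← map_pow, hβ]
    rw [mul_pow, mul_pow, ← hp0, ← hp1, ← hp2, e1, e2]
    simp only [f, map_neg, map_one]
    have e3 : κ ((1 + Complex.I) / 2) + κ ((1 - Complex.I) / 2) = 1 := by
      rw [← map_add]
      have : (1 + Complex.I) / 2 + (1 - Complex.I) / 2 = 1 := by ring
      rw [this, map_one]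
    have e4 : κ ((1 + Complex.I) / 2) - κ ((1 - Complex.I) / 2) = κ Complex.I := by
      rw [← map_sub]
      congr 1
      ring
    linear_combination c * e3 - b * e4
  · intro d hd1 hd2
    have hd1' : d ∣ p1 := ((unit_const hβ0).dvd_mul_left).mp hd1
    exact hcop _ _ hI3 (hp1 ▸ hd1'.trans (dvd_pow_self p1 (by norm_num)))
      (hp2 ▸ hd2.trans (dvd_pow_self p2 (by norm_num)))
  · intro hu
    exact hp1nu (isUnit_of_mul_isUnit_right hu)

/-- In such a ring, one member of a solution of `a⁴ + b⁴ = c⁴` divides the other two. -/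
theorem one_divides (hroot : ∀ u : R, IsUnit u → ∃ v, v ^ 4 = u) (a b c : R)
    (h : a ^ 4 + b ^ 4 = c ^ 4) :
    (a ∣ b ∧ a ∣ c) ∨ (b ∣ a ∧ b ∣ c) ∨ (c ∣ a ∧ c ∣ b) := by
  classical
  by_cases hb0 : b = 0
  · subst hb0
    have h2 : a ^ 4 = c ^ 4 := by rw [← h]; ring
    obtain ⟨ζ, hζ, hac⟩ := fourth_power_eq h2
    right; right
    exact ⟨⟨algebraMap ℂ R ζ, by rw [hac]; ring⟩, dvd_zero c⟩
  obtain ⟨b', c', g, hrel, hb', hc'⟩ := UniqueFactorizationMonoid.exists_reduced_factors b hb0 c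
  have hg : g ≠ 0 := by
    rintro rfl
    rw [zero_mul] at hb'
    exact hb0 hb'.symm
  let _ := UniqueFactorizationMonoid.toGCDMonoid R
  have hga4 : g ^ 4 ∣ a ^ 4 := by
    refine ⟨c' ^ 4 - b' ^ 4, ?_⟩
    have : a ^ 4 = c ^ 4 - b ^ 4 := by rw [← h]; ring
    rw [this, ← hb', ← hc']
    ring
  have hga : g ∣ a :=
    (UniqueFactorizationMonoid.pow_dvd_pow_iff_dvd (by norm_num : (4 : ℕ) ≠ 0)).mp hga4
  obtain ⟨a', ha'⟩ := hga
  have h' : a' ^ 4 + b' ^ 4 = c' ^ 4 := by
    have : g ^ 4 * (a' ^ 4 + b' ^ 4) = g ^ 4 * c' ^ 4 := by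
      rw [← mul_pow, hc', ← h, ha', ← hb']
      ring
    exact mul_left_cancel₀ (pow_ne_zero 4 hg) this
  have key : IsUnit a' ∨ IsUnit b' ∨ IsUnit c' := by
    by_contra hcon
    push Not at hcon
    obtain ⟨h1, h2, h3⟩ := hcon
    by_cases ha0 : a' = 0
    · subst ha0
      have h4 : b' ^ 4 = c' ^ 4 := by rw [← h']; ring
      obtain ⟨ζ, hζ, hbc⟩ := fourth_power_eq h4
      apply h3
      exact hrel ⟨algebraMap ℂ R ζ, by rw [hbc]; ring⟩ dvd_rfl
    · exact descent hroot a' ha0 b' c' h' hrel h2 h3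
  rcases key with hu | hu | hu
  · left
    constructor
    · rw [ha', ← hb']; exact mul_dvd_mul_left g (hu.dvd)
    · rw [ha', ← hc']; exact mul_dvd_mul_left g (hu.dvd)
  · right; left
    constructor
    · rw [ha', ← hb']; exact mul_dvd_mul_left g (hu.dvd)
    · rw [← hb', ← hc']; exact mul_dvd_mul_left g (hu.dvd)
  · right; right
    constructor
    · rw [ha', ← hc']; exact mul_dvd_mul_left g (hu.dvd)
    · rw [← hb', ← hc']; exact mul_dvd_mul_left g (hu.dvd)

end Descent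

/-! ### Fourth roots of units of power series rings -/

lemma exists_root_powerSeries {A : Type*} [CommRing A] (h4 : IsUnit (4 : A))
    (hroot : ∀ u : A, IsUnit u → ∃ v, v ^ 4 = u) (f : A⟦X⟧) (hf : IsUnit f) :
    ∃ g : A⟦X⟧, g ^ 4 = f := by
  have hf0 : IsUnit (constantCoeff f) := isUnit_iff_constantCoeff.mp hf
  obtain ⟨v, hv⟩ := hroot _ hf0
  have hvu : IsUnit v := by
    rw [← hv] at hf0
    exact (isUnit_pow_iff (by norm_num)).mp hf0
  set I : Ideal A⟦X⟧ := Ideal.span {X} with hI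
  have hmem : ∀ g : A⟦X⟧, constantCoeff g = 0 → g ∈ I := by
    intro g hg
    rw [hI, Ideal.mem_span_singleton]
    exact X_dvd_iff.mpr hg
  obtain ⟨g, hg, _⟩ := HenselianRing.is_henselian (I := I)
    (Polynomial.X ^ 4 - Polynomial.C f)
    (Polynomial.monic_X_pow_sub_C f (by norm_num)) (C v) (by
      apply hmem
      simp [hv]) (by
      have : Polynomial.eval (C v) (Polynomial.derivative (Polynomial.X ^ 4 - Polynomial.C f)) =
          C (4 * v ^ 3) := by
        have e4 : (C (4 : A) : A⟦X⟧) = 4 := map_ofNat C 4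
        simp only [Polynomial.derivative_sub, Polynomial.derivative_X_pow,
          Polynomial.derivative_C, sub_zero, Polynomial.eval_mul, Polynomial.eval_pow,
          Polynomial.eval_X, Polynomial.eval_C, map_mul, map_pow, e4]
        norm_num
      rw [this]
      exact ((h4.mul (hvu.pow 3)).map (C (R := A))).map _)
  refine ⟨g, ?_⟩
  have : g ^ 4 - f = 0 := by simpa [Polynomial.IsRoot] using hg
  exact sub_eq_zero.mp this

lemma exists_root_C (u : ℂ) : ∃ v : ℂ, v ^ 4 = u :=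
  IsAlgClosed.exists_pow_nat_eq u (by norm_num)

lemma exists_root_CXX (f : ℂ⟦X⟧⟦X⟧) (hf : IsUnit f) : ∃ g, g ^ 4 = f := by
  have h4 : IsUnit (4 : ℂ⟦X⟧) := by
    rw [isUnit_iff_constantCoeff]
    have : constantCoeff (4 : ℂ⟦X⟧) = 4 := map_ofNat constantCoeff 4
    rw [this]
    exact isUnit_iff_ne_zero.mpr (by norm_num)
  refine exists_root_powerSeries h4 (fun u hu => ?_) f hf
  exact exists_root_powerSeries (by simp) (fun u _ => exists_root_C u) u hu

/-- The conclusion over the complex numbers. -/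
theorem one_divides_CXX (a b c : ℂ⟦X⟧⟦X⟧) (h : a ^ 4 + b ^ 4 = c ^ 4) :
    (a ∣ b ∧ a ∣ c) ∨ (b ∣ a ∧ b ∣ c) ∨ (c ∣ a ∧ c ∣ b) :=
  one_divides exists_root_CXX a b c h

/-! ### Descent to the real numbers -/

/-- Complexification of double power series. -/
noncomputable def toC : ℝ⟦X⟧⟦X⟧ →+* ℂ⟦X⟧⟦X⟧ := map (map Complex.ofRealHom)

/-- Coefficientwise real part. -/
noncomputable def rePart (f : ℂ⟦X⟧⟦X⟧) : ℝ⟦X⟧⟦X⟧ :=
  mk fun i => mk fun j => (coeff j (coeff i f)).re

lemma rePart_toC_mul (a : ℝ⟦X⟧⟦X⟧) (f : ℂ⟦X⟧⟦X⟧) : rePart (toC a * f) = a * rePart f := by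
  ext i j
  simp only [rePart, coeff_mk, coeff_mul, map_sum, toC, coeff_map, Complex.re_sum]
  refine Finset.sum_congr rfl fun x _ => Finset.sum_congr rfl fun y _ => ?_
  simp

lemma rePart_toC (a : ℝ⟦X⟧⟦X⟧) : rePart (toC a) = a := by
  ext i j
  simp [rePart, toC]

lemma dvd_of_toC_dvd {a b : ℝ⟦X⟧⟦X⟧} (h : toC a ∣ toC b) : a ∣ b := by
  obtain ⟨f, hf⟩ := h
  refine ⟨rePart f, ?_⟩
  rw [← rePart_toC_mul, ← hf, rePart_toC]

lemma dvd_of_dvd_of_dvd {a b c : ℝ⟦X⟧⟦X⟧} (h : a ^ 4 + b ^ 4 = c ^ 4) (hc : c ≠ 0)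
    (h1 : a ∣ b) (h2 : a ∣ c) : c ∣ a ∧ c ∣ b := by
  obtain ⟨r, hr⟩ := h1
  obtain ⟨k, hk⟩ := h2
  have ha : a ≠ 0 := by
    rintro rfl
    exact hc (by rw [hk, zero_mul])
  have e : 1 + r ^ 4 = k ^ 4 := by
    have : a ^ 4 * (1 + r ^ 4) = a ^ 4 * k ^ 4 := by
      rw [← mul_pow, ← hk, ← h, hr]
      ring
    exact mul_left_cancel₀ (pow_ne_zero 4 ha) this
  have hku : IsUnit k := by
    rw [isUnit_iff_constantCoeff, isUnit_iff_constantCoeff, isUnit_iff_ne_zero]
    intro h0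
    have e2 := congrArg (fun z => constantCoeff (constantCoeff z)) e
    simp only [map_add, map_one, map_pow, h0] at e2
    have : (0 : ℝ) ≤ (constantCoeff (constantCoeff r)) ^ 4 := by positivity
    norm_num at e2
    linarith
  obtain ⟨k', hk'⟩ := hku.exists_right_inv
  have hca : c ∣ a := ⟨k', by rw [hk, mul_assoc, hk', mul_one]⟩
  exact ⟨hca, hca.trans ⟨r, hr⟩⟩

/-- In `ℝ⟦X⟧⟦X⟧` a nonzero solution of `a⁴ + b⁴ = c⁴` has `c ∣ a` and `c ∣ b`. -/
theorem real_divides (a b c : ℝ⟦X⟧⟦X⟧) (h : a ^ 4 + b ^ 4 = c ^ 4) (hc : c ≠ 0) :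
    c ∣ a ∧ c ∣ b := by
  have h' : toC a ^ 4 + toC b ^ 4 = toC c ^ 4 := by
    rw [← map_pow, ← map_pow, ← map_pow, ← map_add, h]
  rcases one_divides_CXX _ _ _ h' with ⟨h1, h2⟩ | ⟨h1, h2⟩ | ⟨h1, h2⟩
  · exact dvd_of_dvd_of_dvd h hc (dvd_of_toC_dvd h1) (dvd_of_toC_dvd h2)
  · exact (dvd_of_dvd_of_dvd (by rw [add_comm]; exact h) hc (dvd_of_toC_dvd h1)
      (dvd_of_toC_dvd h2)).symm
  · exact ⟨dvd_of_toC_dvd h1, dvd_of_toC_dvd h2⟩

end MP1c24b6
end

section

/-!
The graph of the `l⁴` norm is locally connected by analytic paths.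
-/

namespace MP1c24b6

open Filter Topology

lemma analyticAt_sqrt' {x : ℝ} (hx : 0 < x) : AnalyticAt ℝ Real.sqrt x :=
  (Real.contDiffAt_sqrt (n := ⊤) hx.ne').analyticAt

lemma analyticAt_N4_comp {u v : ℝ → ℝ} {t : ℝ} (hu : AnalyticAt ℝ u t) (hv : AnalyticAt ℝ v t)
    (h : u t ≠ 0 ∨ v t ≠ 0) : AnalyticAt ℝ (fun s => N4 (u s) (v s)) t := by
  have h1 : 0 < u t ^ 4 + v t ^ 4 := by
    rcases h with h | h
    · have : 0 < u t ^ 4 := by positivity
      have : 0 ≤ v t ^ 4 := by positivity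
      linarith
    · have : 0 < v t ^ 4 := by positivity
      have : 0 ≤ u t ^ 4 := by positivity
      linarith
  have h2 : AnalyticAt ℝ (fun s => u s ^ 4 + v s ^ 4) t := (hu.pow 4).add (hv.pow 4)
  have h3 : AnalyticAt ℝ (fun s => Real.sqrt (u s ^ 4 + v s ^ 4)) t :=
    AnalyticAt.comp (g := Real.sqrt) (f := fun s => u s ^ 4 + v s ^ 4) (x := t)
      (analyticAt_sqrt' h1) h2
  exact AnalyticAt.comp (g := Real.sqrt) (f := fun s => Real.sqrt (u s ^ 4 + v s ^ 4)) (x := t)
    (analyticAt_sqrt' (Real.sqrt_pos.mpr h1)) h3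

lemma analyticAt_vec3 {f g h : ℝ → ℝ} {t : ℝ} (hf : AnalyticAt ℝ f t) (hg : AnalyticAt ℝ g t)
    (hh : AnalyticAt ℝ h t) : AnalyticAt ℝ (fun s => (![f s, g s, h s] : Fin 3 → ℝ)) t := by
  refine AnalyticAt.pi (f := fun i s => (![f s, g s, h s] : Fin 3 → ℝ) i) fun i => ?_
  fin_cases i
  · exact hf
  · exact hg
  · exact hh

/-- Points of `T4` in polar form. -/
noncomputable def pt (ρ θ : ℝ) : Fin 3 → ℝ :=
  ![ρ * (Real.cos θ / N4 (Real.cos θ) (Real.sin θ)),
    ρ * (Real.sin θ / N4 (Real.cos θ) (Real.sin θ)), ρ]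

lemma cos_or_sin (θ : ℝ) : Real.cos θ ≠ 0 ∨ Real.sin θ ≠ 0 := by
  by_contra h
  push Not at h
  have := Real.sin_sq_add_cos_sq θ
  rw [h.1, h.2] at this
  norm_num at this

lemma pt_mem {ρ : ℝ} (hρ : 0 ≤ ρ) (θ : ℝ) : pt ρ θ ∈ T4 := by
  refine ⟨?_, hρ⟩
  change ρ ^ 4 = (ρ * (Real.cos θ / N4 (Real.cos θ) (Real.sin θ))) ^ 4 +
    (ρ * (Real.sin θ / N4 (Real.cos θ) (Real.sin θ))) ^ 4
  have hN := N4_pos (cos_or_sin θ)
  have hN4 := N4_pow (Real.cos θ) (Real.sin θ)
  have e : (ρ * (Real.cos θ / N4 (Real.cos θ) (Real.sin θ))) ^ 4 +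
    (ρ * (Real.sin θ / N4 (Real.cos θ) (Real.sin θ))) ^ 4 =
    ρ ^ 4 * ((Real.cos θ ^ 4 + Real.sin θ ^ 4) / N4 (Real.cos θ) (Real.sin θ) ^ 4) := by
    field_simp
  rw [e, ← hN4, div_self (pow_ne_zero 4 hN.ne'), mul_one]

lemma N4_smul {r : ℝ} (hr : 0 ≤ r) (u v : ℝ) : N4 (r * u) (r * v) = r * N4 u v := by
  symm
  refine eq_N4 (mul_nonneg hr (N4_nonneg u v)) ?_
  rw [mul_pow, N4_pow]
  ring

lemma exists_pt {p : Fin 3 → ℝ} (hp : p ∈ T4) : ∃ θ, p = pt (p 2) θ := by
  have h2 : p 2 = N4 (p 0) (p 1) := eq_N4 hp.2 hp.1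
  set z : ℂ := ⟨p 0, p 1⟩ with hz
  refine ⟨z.arg, ?_⟩
  have h3 : p 0 = ‖z‖ * Real.cos z.arg := by
    have := Complex.norm_mul_cos_arg z
    exact this.symm
  have h4 : p 1 = ‖z‖ * Real.sin z.arg := by
    have := Complex.norm_mul_sin_arg z
    exact this.symm
  have h5 : p 2 = ‖z‖ * N4 (Real.cos z.arg) (Real.sin z.arg) := by
    rw [h2, h3, h4, N4_smul (norm_nonneg z)]
  have hN := N4_pos (cos_or_sin z.arg)
  funext i
  fin_cases i
  · change p 0 = p 2 * (Real.cos z.arg / N4 (Real.cos z.arg) (Real.sin z.arg))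
    rw [h5, h3]
    field_simp
  · change p 1 = p 2 * (Real.sin z.arg / N4 (Real.cos z.arg) (Real.sin z.arg))
    rw [h5, h4]
    field_simp
  · rfl

lemma abs_le_of_mem {p : Fin 3 → ℝ} (hp : p ∈ T4) (i : Fin 3) : |p i| ≤ p 2 := by
  have h2 : p 2 = N4 (p 0) (p 1) := eq_N4 hp.2 hp.1
  fin_cases i
  · change |p 0| ≤ p 2
    rw [h2]
    exact abs_le_N4_left _ _
  · change |p 1| ≤ p 2
    rw [h2]
    exact abs_le_N4_right _ _
  · exact (abs_of_nonneg hp.2).le

lemma pt_analyticAt {ρ θ : ℝ → ℝ} {t : ℝ} (hρ : AnalyticAt ℝ ρ t) (hθ : AnalyticAt ℝ θ t) :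
    AnalyticAt ℝ (fun s => pt (ρ s) (θ s)) t := by
  have hc : AnalyticAt ℝ (fun s => Real.cos (θ s)) t := Real.analyticAt_cos.comp hθ
  have hs : AnalyticAt ℝ (fun s => Real.sin (θ s)) t := Real.analyticAt_sin.comp hθ
  have hN : AnalyticAt ℝ (fun s => N4 (Real.cos (θ s)) (Real.sin (θ s))) t :=
    analyticAt_N4_comp hc hs (cos_or_sin _)
  have hN0 : N4 (Real.cos (θ t)) (Real.sin (θ t)) ≠ 0 := (N4_pos (cos_or_sin _)).ne'
  exact analyticAt_vec3 (hρ.mul (hc.div hN hN0)) (hρ.mul (hs.div hN hN0)) hρ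

lemma affine_analyticAt (a b t : ℝ) : AnalyticAt ℝ (fun s : ℝ => (1 - s) * a + s * b) t := by
  fun_prop

theorem locConn_T4 : LocConnAnalytic T4 := by
  intro x hx U hU hxU
  obtain ⟨r, hr, hball⟩ := Metric.isOpen_iff.mp hU x hxU
  have hx2 : x 2 = N4 (x 0) (x 1) := eq_N4 hx.2 hx.1
  by_cases h0 : x 0 = 0 ∧ x 1 = 0
  · -- the vertex
    have hx2' : x 2 = 0 := by
      rw [hx2, h0.1, h0.2, N4]
      norm_num
    have hxi : ∀ i, x i = 0 := by
      intro i
      fin_cases i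
      · exact h0.1
      · exact h0.2
      · exact hx2'
    refine ⟨{p | ∀ i, |p i - x i| < r}, ?_, isSemialg_box x (fun _ => r), ?_, ?_, ?_⟩
    · have : {p : Fin 3 → ℝ | ∀ i, |p i - x i| < r} = Metric.ball x r := by
        ext p
        rw [Metric.mem_ball, dist_pi_lt_iff hr]
        rfl
      rw [this]
      exact Metric.isOpen_ball
    · intro i
      simpa using hr
    · intro p hp
      apply hball
      rw [Metric.mem_ball, dist_pi_lt_iff hr]
      exact hp
    · rintro p ⟨hp, hpW⟩ q ⟨hq, hqW⟩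
      obtain ⟨θ, hθ⟩ := exists_pt hp
      obtain ⟨η, hη⟩ := exists_pt hq
      refine ⟨1, fun t => pt ((1 - t) * p 2 + t * q 2) ((1 - t) * θ + t * η), one_pos, ?_, ?_,
        ?_, ?_⟩
      · intro t _
        exact pt_analyticAt (affine_analyticAt _ _ _) (affine_analyticAt _ _ _)
      · intro t ht
        have hρ : 0 ≤ (1 - t) * p 2 + t * q 2 :=
          add_nonneg (mul_nonneg (by linarith [ht.2]) hp.2) (mul_nonneg ht.1 hq.2)
        have hmem := pt_mem hρ ((1 - t) * θ + t * η)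
        refine ⟨hmem, fun i => ?_⟩
        have h1 := abs_le_of_mem hmem i
        rw [hxi i, sub_zero]
        refine h1.trans_lt ?_
        change (1 - t) * p 2 + t * q 2 < r
        have hp2 : p 2 < r := by
          have := hpW 2
          rw [hxi 2, sub_zero] at this
          exact (le_abs_self _).trans_lt this
        have hq2 : q 2 < r := by
          have := hqW 2
          rw [hxi 2, sub_zero] at this
          exact (le_abs_self _).trans_lt this
        rcases eq_or_lt_of_le ht.1 with h | h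
        · rw [← h]
          linarith
        · nlinarith [ht.2, ht.1]
      · simp only [sub_zero, one_mul, zero_mul, add_zero]
        exact hθ.symm
      · simp only [sub_self, zero_mul, one_mul, zero_add]
        exact hη.symm
  · -- off the vertex
    have hcont : ContinuousAt (fun p : ℝ × ℝ => N4 p.1 p.2) (x 0, x 1) :=
      N4_continuous.continuousAt
    have hev : ∀ᶠ p : ℝ × ℝ in 𝓝 (x 0, x 1), |N4 p.1 p.2 - x 2| < r := by
      have := Metric.continuousAt_iff'.mp hcont r hr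
      filter_upwards [this] with p hp
      rw [hx2]
      exact hp
    have hev2 : ∀ᶠ p : ℝ × ℝ in 𝓝 (x 0, x 1), p ≠ (0, 0) := by
      refine (isOpen_compl_singleton (x := ((0 : ℝ), (0 : ℝ)))).mem_nhds ?_
      intro h
      rw [Set.mem_singleton_iff, Prod.mk.injEq] at h
      exact h0 h
    obtain ⟨δ', hδ', hb⟩ := Metric.eventually_nhds_iff_ball.mp (hev.and hev2)
    set δ := min δ' r with hδ
    have hδpos : 0 < δ := lt_min hδ' hr
    set D : Fin 3 → ℝ := ![δ, δ, r] with hD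
    have hbox : ∀ u v : ℝ, |u - x 0| < δ → |v - x 1| < δ →
        |N4 u v - x 2| < r ∧ (u ≠ 0 ∨ v ≠ 0) := by
      intro u v hu hv
      have hmem : ((u, v) : ℝ × ℝ) ∈ Metric.ball (x 0, x 1) δ' := by
        rw [Metric.mem_ball, Prod.dist_eq]
        exact max_lt (hu.trans_le (min_le_left _ _)) (hv.trans_le (min_le_left _ _))
      obtain ⟨h1, h2⟩ := hb _ hmem
      refine ⟨h1, ?_⟩
      by_contra h
      push Not at h
      exact h2 (by rw [h.1, h.2])
    refine ⟨{p | ∀ i, |p i - x i| < D i}, ?_, isSemialg_box x D, ?_, ?_, ?_⟩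
    · have : {p : Fin 3 → ℝ | ∀ i, |p i - x i| < D i} = ⋂ i, {p | |p i - x i| < D i} := by
        ext p
        simp
      rw [this]
      exact isOpen_iInter_of_finite fun i => isOpen_lt (by fun_prop) continuous_const
    · intro i
      rw [sub_self, abs_zero]
      fin_cases i
      · exact hδpos
      · exact hδpos
      · exact hr
    · intro p hp
      apply hball
      rw [Metric.mem_ball, dist_pi_lt_iff hr]
      intro i
      refine (hp i).trans_le ?_
      fin_cases i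
      · exact min_le_right _ _
      · exact min_le_right _ _
      · exact le_rfl
    · rintro p ⟨hp, hpW⟩ q ⟨hq, hqW⟩
      have hp2 : p 2 = N4 (p 0) (p 1) := eq_N4 hp.2 hp.1
      have hq2 : q 2 = N4 (q 0) (q 1) := eq_N4 hq.2 hq.1
      set u : ℝ → ℝ := fun t => (1 - t) * p 0 + t * q 0 with hu
      set v : ℝ → ℝ := fun t => (1 - t) * p 1 + t * q 1 with hv
      have huc : Continuous u := by fun_prop
      have hvc : Continuous v := by fun_prop
      set O : Set ℝ := {t | |u t - x 0| < δ ∧ |v t - x 1| < δ} with hO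
      have hO1 : IsOpen {t : ℝ | |u t - x 0| < δ} :=
        isOpen_lt ((huc.sub continuous_const).abs) continuous_const
      have hO2 : IsOpen {t : ℝ | |v t - x 1| < δ} :=
        isOpen_lt ((hvc.sub continuous_const).abs) continuous_const
      have hOopen : IsOpen O := hO1.inter hO2
      have hconv : ∀ (a b c t : ℝ), t ∈ Set.Icc (0 : ℝ) 1 → |a - c| < δ → |b - c| < δ →
          |(1 - t) * a + t * b - c| < δ := by
        intro a b c t ht ha hb
        have h1 : a ∈ Metric.ball c δ := by rwa [Metric.mem_ball, Real.dist_eq]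
        have h2 : b ∈ Metric.ball c δ := by rwa [Metric.mem_ball, Real.dist_eq]
        have h3 := (convex_ball c δ) h1 h2 (by linarith [ht.2] : 0 ≤ 1 - t) ht.1 (by ring)
        rw [Metric.mem_ball, Real.dist_eq] at h3
        exact h3
      have hOsub : ∀ t ∈ Set.Icc (0 : ℝ) 1, t ∈ O := by
        intro t ht
        exact ⟨hconv _ _ _ t ht (hpW 0) (hqW 0), hconv _ _ _ t ht (hpW 1) (hqW 1)⟩
      obtain ⟨e0, he0, hb0⟩ := Metric.isOpen_iff.mp hOopen 0 (hOsub 0 ⟨le_rfl, zero_le_one⟩)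
      obtain ⟨e1, he1, hb1⟩ := Metric.isOpen_iff.mp hOopen 1 (hOsub 1 ⟨zero_le_one, le_rfl⟩)
      refine ⟨min e0 e1, fun t => ![u t, v t, N4 (u t) (v t)], lt_min he0 he1, ?_, ?_, ?_, ?_⟩
      · intro t ht
        have htO : t ∈ O := by
          by_cases h1 : t < 0
          · apply hb0
            rw [Metric.mem_ball, Real.dist_eq, sub_zero, abs_of_neg h1]
            linarith [ht.1, min_le_left e0 e1]
          · by_cases h2 : 1 < t
            · apply hb1
              rw [Metric.mem_ball, Real.dist_eq, abs_of_pos (by linarith)]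
              linarith [ht.2, min_le_right e0 e1]
            · exact hOsub t ⟨not_lt.mp h1, not_lt.mp h2⟩
        exact analyticAt_vec3 (affine_analyticAt _ _ _) (affine_analyticAt _ _ _)
          (analyticAt_N4_comp (affine_analyticAt _ _ _) (affine_analyticAt _ _ _)
            (hbox _ _ htO.1 htO.2).2)
      · intro t ht
        have htO := hOsub t ht
        refine ⟨⟨N4_pow _ _, N4_nonneg _ _⟩, fun i => ?_⟩
        fin_cases i
        · exact htO.1
        · exact htO.2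
        · exact (hbox _ _ htO.1 htO.2).1
      · funext i
        fin_cases i
        · change (1 - 0) * p 0 + 0 * q 0 = p 0
          ring
        · change (1 - 0) * p 1 + 0 * q 1 = p 1
          ring
        · change N4 ((1 - 0) * p 0 + 0 * q 0) ((1 - 0) * p 1 + 0 * q 1) = p 2
          rw [hp2]
          congr 1 <;> ring
      · funext i
        fin_cases i
        · change (1 - 1) * p 0 + 1 * q 0 = q 0
          ring
        · change (1 - 1) * p 1 + 1 * q 1 = q 1
          ring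
        · change N4 ((1 - 1) * p 0 + 1 * q 0) ((1 - 1) * p 1 + 1 * q 1) = q 2
          rw [hq2]
          congr 1 <;> ring

end MP1c24b6
end

section

/-!
There is no nowhere vanishing continuous field on the plane which points outwards along a circle.
-/

namespace MP1c24b6

theorem no_radial_field (V : ℂ → ℂ) (hV : Continuous V) (hne : ∀ p, V p ≠ 0) (R : ℝ) (hR : 0 < R)
    (hpos : ∀ p : ℂ, p.re ^ 2 + p.im ^ 2 = R ^ 2 → 0 < p.re * (V p).re + p.im * (V p).im) :
    False := by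
  obtain ⟨L, ⟨_, hL⟩, _⟩ := Complex.isCoveringMapOn_exp.existsUnique_continuousMap_lifts
    (⟨V, hV⟩ : C(ℂ, ℂ)) (a₀ := 0) (e₀ := Complex.log (V 0)) (Complex.exp_log (hne 0))
    (fun a => hne a)
  have hL' : ∀ p, Complex.exp (L p) = V p := fun p => congrFun hL p
  let c : ℝ → ℂ := fun θ => ⟨R * Real.cos θ, R * Real.sin θ⟩
  have hc : Continuous c := by
    have : c = fun θ : ℝ => ((R * Real.cos θ : ℝ) : ℂ) + ((R * Real.sin θ : ℝ) : ℂ) * Complex.I := by
      funext θ
      exact Complex.mk_eq_add_mul_I _ _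
    rw [this]
    fun_prop
  let u : ℝ → ℝ := fun θ => (L (c θ)).im - θ
  have hu : Continuous u := by
    have h1 : Continuous fun θ => (L (c θ)).im := Complex.continuous_im.comp (L.continuous.comp hc)
    exact h1.sub continuous_id
  have hcos : ∀ θ, 0 < Real.cos (u θ) := by
    intro θ
    have h1 : (c θ).re ^ 2 + (c θ).im ^ 2 = R ^ 2 := by
      change (R * Real.cos θ) ^ 2 + (R * Real.sin θ) ^ 2 = R ^ 2
      have := Real.sin_sq_add_cos_sq θ
      linear_combination R ^ 2 * this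
    have h2 := hpos (c θ) h1
    rw [← hL', Complex.exp_re, Complex.exp_im] at h2
    have h3 : (c θ).re * (Real.exp (L (c θ)).re * Real.cos (L (c θ)).im) +
        (c θ).im * (Real.exp (L (c θ)).re * Real.sin (L (c θ)).im) =
        (R * Real.exp (L (c θ)).re) * Real.cos (u θ) := by
      change (R * Real.cos θ) * (Real.exp (L (c θ)).re * Real.cos (L (c θ)).im) +
        (R * Real.sin θ) * (Real.exp (L (c θ)).re * Real.sin (L (c θ)).im) =
        (R * Real.exp (L (c θ)).re) * Real.cos ((L (c θ)).im - θ)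
      rw [Real.cos_sub]
      ring
    rw [h3] at h2
    exact (mul_pos_iff_of_pos_left (by positivity)).mp h2
  have hper : u (2 * Real.pi) = u 0 - 2 * Real.pi := by
    have h1 : c (2 * Real.pi) = c 0 := by
      simp [c]
    change (L (c (2 * Real.pi))).im - 2 * Real.pi = (L (c 0)).im - 0 - 2 * Real.pi
    rw [h1]
    ring
  have hiv := intermediate_value_uIcc (a := (0 : ℝ)) (b := 2 * Real.pi) hu.continuousOn
  have hmem : u 0 - Real.pi ∈ Set.uIcc (u 0) (u (2 * Real.pi)) := by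
    rw [hper, Set.uIcc_of_ge (by linarith [Real.pi_pos])]
    constructor <;> linarith [Real.pi_pos]
  obtain ⟨θ, _, hθ⟩ := hiv hmem
  have h1 := hcos θ
  rw [hθ, Real.cos_sub_pi] at h1
  linarith [hcos 0]

end MP1c24b6
end
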