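import Pool.Agent.Lib.MP_1c24b6_ag.Defs
import Pool.Agent.Lib.MP_1c24b6_ag.Cl

/-!
Semialgebraic functions are algebraic at the level of germs along an ultrafilter.
-/

namespace MP1c24b6

open Filter Topology

section Germs

variable {α : Type} (φ : Ultrafilter α)

/-- The field of germs along an ultrafilter. -/
abbrev KK : Type := Germ (φ : Filter α) ℝ

/-- Germs of constants. -/
noncomputable def cstHom : ℝ →+* KK φ :=
  (Germ.coeRingHom (φ : Filter α)).comp (Pi.constRingHom α ℝ)

/-- The germ of a function. -/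
def gm (f : α → ℝ) : KK φ := (f : Germ (φ : Filter α) ℝ)

lemma gm_eq_iff {f g : α → ℝ} : gm φ f = gm φ g ↔ ∀ᶠ a in (φ : Filter α), f a = g a :=
  Germ.coe_eq

lemma gm_zero : gm φ (fun _ => (0 : ℝ)) = 0 := rfl

lemma cst_eq (r : ℝ) : cstHom φ r = gm φ (fun _ => r) := rfl

lemma gm_add (f g : α → ℝ) : gm φ (fun a => f a + g a) = gm φ f + gm φ g := rfl

lemma gm_mul (f g : α → ℝ) : gm φ (fun a => f a * g a) = gm φ f * gm φ g := rfl

lemma gm_sub (f g : α → ℝ) : gm φ (fun a => f a - g a) = gm φ f - gm φ g := rfl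

lemma gm_eval {n : ℕ} (P : MvPolynomial (Fin n) ℝ) (y : α → Fin n → ℝ) :
    gm φ (fun a => MvPolynomial.eval (y a) P) =
      MvPolynomial.eval₂ (cstHom φ) (fun i => gm φ (fun a => y a i)) P := by
  induction P using MvPolynomial.induction_on with
  | C r => simp [cst_eq]
  | add p q hp hq =>
    simp only [map_add, MvPolynomial.eval₂_add]
    rw [gm_add, hp, hq]
  | mul_X p i hp =>
    simp only [map_mul, MvPolynomial.eval₂_mul, MvPolynomial.eval_X, MvPolynomial.eval₂_X]
    rw [gm_mul, hp]

/-- The polynomial in the last variable with germ coefficients. -/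
noncomputable def lastPoly {n : ℕ} (P : MvPolynomial (Fin (n + 1)) ℝ) (x : α → Fin n → ℝ) :
    Polynomial (KK φ) :=
  MvPolynomial.eval₂ ((Polynomial.C : KK φ →+* _).comp (cstHom φ))
    (Fin.snoc (α := fun _ => Polynomial (KK φ))
      (fun i => Polynomial.C (gm φ (fun a => x a i))) Polynomial.X) P

lemma eval_lastPoly {n : ℕ} (P : MvPolynomial (Fin (n + 1)) ℝ) (x : α → Fin n → ℝ) (g : α → ℝ) :
    (lastPoly φ P x).eval (gm φ g) =
      gm φ (fun a => MvPolynomial.eval (Fin.snoc (α := fun _ => ℝ) (x a) (g a)) P) := by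
  rw [gm_eval, lastPoly]
  have := MvPolynomial.eval₂_comp_left (Polynomial.evalRingHom (gm φ g))
    ((Polynomial.C : KK φ →+* _).comp (cstHom φ))
    (Fin.snoc (α := fun _ => Polynomial (KK φ))
      (fun i => Polynomial.C (gm φ (fun a => x a i))) Polynomial.X) P
  rw [Polynomial.coe_evalRingHom] at this
  rw [this]
  congr 1
  · ext r
    simp
  · funext i
    refine Fin.lastCases ?_ (fun j => ?_) i
    · simp
    · simp

lemma lastPoly_mem_lifts {n : ℕ} (P : MvPolynomial (Fin (n + 1)) ℝ) (x : α → Fin n → ℝ)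
    (s : Set (KK φ)) (h1 : ∀ d, cstHom φ (P.coeff d) ∈ s)
    (h2 : ∀ i, gm φ (fun a => x a i) ∈ s) :
    lastPoly φ P x ∈ Polynomial.lifts (algebraMap (Algebra.adjoin ℤ s) (KK φ)) := by
  rw [lastPoly, MvPolynomial.eval₂_eq']
  refine sum_mem fun d _ => mul_mem ?_ (prod_mem fun i _ => pow_mem ?_ _)
  · exact Polynomial.C_mem_lifts (algebraMap (Algebra.adjoin ℤ s) (KK φ))
      ⟨_, Algebra.subset_adjoin (h1 d)⟩
  · refine Fin.lastCases ?_ (fun j => ?_) i
    · simpa using Polynomial.X_mem_lifts _
    · simpa using Polynomial.C_mem_lifts (algebraMap (Algebra.adjoin ℤ s) (KK φ))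
        ⟨_, Algebra.subset_adjoin (h2 j)⟩

end Germs

/-- Local constancy of membership in a semialgebraic set. -/
theorem local_const {n : ℕ} {A : Set (Fin (n + 1) → ℝ)} (hA : IsSemialg A) :
    ∃ C : Set ℝ, C.Countable ∧ ∀ (α : Type) (φ : Ultrafilter α) (x : α → Fin n → ℝ) (g : α → ℝ),
      gm φ g ∉ cl (cstHom φ '' C ∪ Set.range (fun i => gm φ (fun a => x a i))) →
      ∀ᶠ a in (φ : Filter α), ∀ᶠ z in 𝓝 (g a),
        (Fin.snoc (α := fun _ => ℝ) (x a) z ∈ A ↔ Fin.snoc (α := fun _ => ℝ) (x a) (g a) ∈ A) := by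
  induction hA with
  | pos P =>
    refine ⟨Set.range (fun d => P.coeff d), Set.countable_range _, ?_⟩
    intro α φ x g hg
    set s := cstHom φ '' (Set.range fun d => P.coeff d) ∪
      Set.range (fun i => gm φ (fun a => x a i)) with hs
    obtain ⟨p', hp'⟩ := (Polynomial.mem_lifts _).mp (lastPoly_mem_lifts φ P x s
      (fun d => Or.inl ⟨_, ⟨d, rfl⟩, rfl⟩) (fun i => Or.inr ⟨i, rfl⟩))
    by_cases h0 : lastPoly φ P x = 0
    · -- the polynomial vanishes identically in the last variable
      classical
      let z : α → ℝ := fun a => if h : ∃ z, MvPolynomial.eval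
        (Fin.snoc (α := fun _ => ℝ) (x a) z) P ≠ 0 then h.choose else 0
      have h1 := eval_lastPoly φ P x z
      rw [h0, Polynomial.eval_zero, ← gm_zero, eq_comm, gm_eq_iff] at h1
      filter_upwards [h1] with a ha
      have h2 : ∀ w, MvPolynomial.eval (Fin.snoc (α := fun _ => ℝ) (x a) w) P = 0 := by
        by_contra hcon
        push Not at hcon
        have : z a = hcon.choose := dif_pos hcon
        rw [this] at ha
        exact hcon.choose_spec ha
      refine Filter.Eventually.of_forall fun w => ?_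
      simp only [h2]
    · have hne : (lastPoly φ P x).eval (gm φ g) ≠ 0 := by
        intro hz
        apply hg
        refine ⟨p', ?_, ?_⟩
        · rintro rfl
          apply h0
          rw [← hp', Polynomial.map_zero]
        · rw [Polynomial.aeval_def, Polynomial.eval₂_eq_eval_map, hp', hz]
      rw [eval_lastPoly, ← gm_zero, Ne, gm_eq_iff, ← Ultrafilter.eventually_not] at hne
      filter_upwards [hne] with a ha
      have hcont : Continuous fun w : ℝ => MvPolynomial.eval
          (Fin.snoc (α := fun _ => ℝ) (x a) w) P := by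
        refine (MvPolynomial.continuous_eval P).comp ?_
        refine continuous_pi fun i => ?_
        refine Fin.lastCases ?_ (fun j => ?_) i
        · simp only [Fin.snoc_last]
          exact continuous_id
        · simpa using continuous_const
      rcases lt_or_gt_of_ne ha with hlt | hgt
      · have : ∀ᶠ w in 𝓝 (g a), MvPolynomial.eval (Fin.snoc (α := fun _ => ℝ) (x a) w) P < 0 :=
          hcont.continuousAt.eventually_lt_const hlt
        filter_upwards [this] with w hw
        exact iff_of_false (not_lt.mpr hw.le) (not_lt.mpr hlt.le)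
      · have : ∀ᶠ w in 𝓝 (g a), 0 < MvPolynomial.eval (Fin.snoc (α := fun _ => ℝ) (x a) w) P :=
          hcont.continuousAt.eventually_const_lt hgt
        filter_upwards [this] with w hw
        exact iff_of_true hw hgt
  | compl hA ih =>
    obtain ⟨C, hC, h⟩ := ih
    refine ⟨C, hC, fun α φ x g hg => ?_⟩
    filter_upwards [h α φ x g hg] with a ha
    filter_upwards [ha] with z hz
    simp only [Set.mem_compl_iff, hz]
  | inter hA hB ih1 ih2 =>
    obtain ⟨C, hC, h⟩ := ih1
    obtain ⟨D, hD, h'⟩ := ih2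
    refine ⟨C ∪ D, hC.union hD, fun α φ x g hg => ?_⟩
    have e1 := h α φ x g (fun hm => hg (cl_mono (Set.union_subset_union_left _
      (Set.image_mono Set.subset_union_left)) hm))
    have e2 := h' α φ x g (fun hm => hg (cl_mono (Set.union_subset_union_left _
      (Set.image_mono Set.subset_union_right)) hm))
    filter_upwards [e1, e2] with a ha hb
    filter_upwards [ha, hb] with z hz hw
    simp only [Set.mem_inter_iff, hz, hw]

/-- Germs of semialgebraic functions are algebraic. -/
theorem semialg_germ {n : ℕ} {f : (Fin n → ℝ) → ℝ} (hf : SemialgFunOn Set.univ f) :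
    ∃ C : Set ℝ, C.Countable ∧ ∀ (α : Type) (φ : Ultrafilter α) (x : α → Fin n → ℝ),
      gm φ (fun a => f (x a)) ∈
        cl (cstHom φ '' C ∪ Set.range (fun i => gm φ (fun a => x a i))) := by
  obtain ⟨C, hC, h⟩ := local_const hf
  refine ⟨C, hC, fun α φ x => ?_⟩
  by_contra hcon
  obtain ⟨a, ha⟩ := (h α φ x _ hcon).exists
  have h1 : ∀ᶠ z in 𝓝 (f (x a)), z = f (x a) := by
    filter_upwards [ha] with z hz
    have := hz.mpr ⟨x a, Set.mem_univ _, rfl⟩
    obtain ⟨y, _, hy⟩ := this
    have e1 : x a = y := by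
      funext i
      have := congrFun hy i.castSucc
      simpa using this
    have e2 : z = f y := by
      have := congrFun hy (Fin.last n)
      simpa using this
    rw [e2, e1]
  have h2 : ∀ᶠ z in 𝓝[≠] (f (x a)), False := by
    filter_upwards [h1.filter_mono nhdsWithin_le_nhds, self_mem_nhdsWithin] with z hz hz'
    exact hz' hz
  exact h2.exists.elim fun _ h => h

end MP1c24b6
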